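import Mathlib
set_option autoImplicit false
namespace Pool.Agent.Helper84.Tet
open MeasureTheory

theorem vol_oct_le {s : ℝ} (hs : 0 ≤ s) :
    volume {x : Fin 3 → ℝ | |x 0| + |x 1| + |x 2| ≤ s} = ENNReal.ofReal (4 / 3 * s ^ 3) := by
  have h := MeasureTheory.volume_sum_rpow_le (Fin 3) (p := 1) le_rfl s
  have e1 : {x : Fin 3 → ℝ | |x 0| + |x 1| + |x 2| ≤ s}
      = {x : Fin 3 → ℝ | (∑ i, |x i| ^ (1 : ℝ)) ^ (1 / (1 : ℝ)) ≤ s} := by
    ext x; simp [Fin.sum_univ_three]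
  rw [e1, h, ← ENNReal.ofReal_pow hs, ← ENNReal.ofReal_mul (by positivity)]
  congr 1
  have g2 : Real.Gamma (1 / 1 + 1) = 1 := by
    norm_num
  have g4 : Real.Gamma (((Fintype.card (Fin 3) : ℕ) : ℝ) / 1 + 1) = 6 := by
    have := Real.Gamma_nat_eq_factorial 3
    simp only [Fintype.card_fin]
    rw [div_one]
    rw [this]
    norm_num [Nat.factorial]
  rw [g2, g4]
  simp only [Fintype.card_fin]
  ring

theorem vol_oct_lt {s : ℝ} (hs : 0 ≤ s) :
    volume {x : Fin 3 → ℝ | |x 0| + |x 1| + |x 2| < s} = ENNReal.ofReal (4 / 3 * s ^ 3) := by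
  have h := MeasureTheory.volume_sum_rpow_lt (Fin 3) (p := 1) le_rfl s
  have e1 : {x : Fin 3 → ℝ | |x 0| + |x 1| + |x 2| < s}
      = {x : Fin 3 → ℝ | (∑ i, |x i| ^ (1 : ℝ)) ^ (1 / (1 : ℝ)) < s} := by
    ext x; simp [Fin.sum_univ_three]
  rw [e1, h, ← ENNReal.ofReal_pow hs, ← ENNReal.ofReal_mul (by positivity)]
  congr 1
  have g2 : Real.Gamma (1 / 1 + 1) = 1 := by
    norm_num
  have g4 : Real.Gamma (((Fintype.card (Fin 3) : ℕ) : ℝ) / 1 + 1) = 6 := by
    have := Real.Gamma_nat_eq_factorial 3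
    simp only [Fintype.card_fin]
    rw [div_one]
    rw [this]
    norm_num [Nat.factorial]
  rw [g2, g4]
  simp only [Fintype.card_fin]
  ring

theorem vol_preimage_matrix (A : Matrix (Fin 3) (Fin 3) ℝ) (c : Fin 3 → ℝ) (hA : A.det ≠ 0)
    (S : Set (Fin 3 → ℝ)) :
    volume {x : Fin 3 → ℝ | A.mulVec x + c ∈ S} = ENNReal.ofReal |(A.det)⁻¹| * volume S := by
  have h1 : {x : Fin 3 → ℝ | A.mulVec x + c ∈ S}
      = (Matrix.toLin' A) ⁻¹' ((fun y => y + c) ⁻¹' S) := by
    ext x; simp [Matrix.toLin'_apply]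
  have hdet : LinearMap.det (Matrix.toLin' A) ≠ 0 := by
    rw [LinearMap.det_toLin']; exact hA
  rw [h1, Measure.addHaar_preimage_linearMap volume hdet, LinearMap.det_toLin',
    measure_preimage_add_right]

/-- The half-open standard simplex. -/
def SimpP (s : ℝ) : Set (Fin 3 → ℝ) :=
  {x | 0 < x 0 ∧ 0 < x 1 ∧ 0 < x 2 ∧ x 0 + x 1 + x 2 ≤ s}
/-- The open standard simplex. -/
def SimpO (s : ℝ) : Set (Fin 3 → ℝ) :=
  {x | 0 < x 0 ∧ 0 < x 1 ∧ 0 < x 2 ∧ x 0 + x 1 + x 2 < s}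
/-- The closed standard simplex. -/
def SimpC (s : ℝ) : Set (Fin 3 → ℝ) :=
  {x | 0 ≤ x 0 ∧ 0 ≤ x 1 ∧ 0 ≤ x 2 ∧ x 0 + x 1 + x 2 ≤ s}

/-- Eight sign patterns. -/
def sg (k : Fin 2 × Fin 2 × Fin 2) : Fin 3 → ℝ :=
  ![if k.1 = 0 then 1 else -1, if k.2.1 = 0 then 1 else -1, if k.2.2 = 0 then 1 else -1]

theorem sg_det (k : Fin 2 × Fin 2 × Fin 2) : |(Matrix.diagonal (sg k)).det⁻¹| = 1 := by
  rw [Matrix.det_diagonal, Fin.prod_univ_three]
  obtain ⟨a, b, c⟩ := k
  fin_cases a <;> fin_cases b <;> fin_cases c <;> simp [sg]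

theorem sg_det_ne (k : Fin 2 × Fin 2 × Fin 2) : (Matrix.diagonal (sg k)).det ≠ 0 := by
  intro h
  have := sg_det k
  rw [h] at this
  simp at this

theorem vol_flip (k : Fin 2 × Fin 2 × Fin 2) (S : Set (Fin 3 → ℝ)) :
    volume {x : Fin 3 → ℝ | (fun i => sg k i * x i) ∈ S} = volume S := by
  have h := vol_preimage_matrix (Matrix.diagonal (sg k)) 0 (sg_det_ne k) S
  rw [sg_det, ENNReal.ofReal_one, one_mul] at h
  rw [← h]
  congr 1
  ext x
  simp only [Set.mem_ofPred_eq, add_zero]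
  have : (Matrix.diagonal (sg k)).mulVec x = fun i => sg k i * x i := by
    ext i; simp [Matrix.mulVec_diagonal]
  rw [this]

theorem measurableSet_SimpP (s : ℝ) : MeasurableSet (SimpP s) := by
  unfold SimpP
  refine MeasurableSet.inter ?_ (MeasurableSet.inter ?_ (MeasurableSet.inter ?_ ?_))
  · exact measurableSet_lt measurable_const (measurable_pi_apply 0)
  · exact measurableSet_lt measurable_const (measurable_pi_apply 1)
  · exact measurableSet_lt measurable_const (measurable_pi_apply 2)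
  · exact measurableSet_le (((measurable_pi_apply 0).add (measurable_pi_apply 1)).add
      (measurable_pi_apply 2)) measurable_const

theorem vol_SimpP_le {s : ℝ} (hs : 0 ≤ s) : volume (SimpP s) ≤ ENNReal.ofReal (s ^ 3 / 6) := by
  have hdisj : Pairwise (Function.onFun Disjoint
      (fun k : Fin 2 × Fin 2 × Fin 2 => {x : Fin 3 → ℝ | (fun i => sg k i * x i) ∈ SimpP s})) := by
    intro k l hkl
    rw [Function.onFun, Set.disjoint_left]
    rintro x ⟨h0, h1, h2, h3⟩ ⟨g0, g1, g2, g3⟩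
    apply hkl
    obtain ⟨a, b, c⟩ := k
    obtain ⟨a', b', c'⟩ := l
    simp only [sg] at h0 h1 h2 g0 g1 g2
    fin_cases a <;> fin_cases a' <;> fin_cases b <;> fin_cases b' <;> fin_cases c <;>
      fin_cases c' <;> simp at h0 h1 h2 g0 g1 g2 ⊢ <;> linarith
  have hmeas : ∀ k : Fin 2 × Fin 2 × Fin 2,
      MeasurableSet {x : Fin 3 → ℝ | (fun i => sg k i * x i) ∈ SimpP s} := by
    intro k
    exact (measurableSet_SimpP s).preimage (by fun_prop)
  have hU : volume (⋃ k : Fin 2 × Fin 2 × Fin 2,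
      {x : Fin 3 → ℝ | (fun i => sg k i * x i) ∈ SimpP s}) = 8 * volume (SimpP s) := by
    rw [measure_iUnion hdisj hmeas, tsum_fintype]
    simp only [vol_flip]
    simp
  have hsub : (⋃ k : Fin 2 × Fin 2 × Fin 2,
      {x : Fin 3 → ℝ | (fun i => sg k i * x i) ∈ SimpP s})
      ⊆ {x : Fin 3 → ℝ | |x 0| + |x 1| + |x 2| ≤ s} := by
    intro x hx
    simp only [Set.mem_iUnion] at hx
    obtain ⟨⟨a, b, c⟩, h0, h1, h2, h3⟩ := hx
    simp only [Set.mem_ofPred_eq]
    have key : ∀ a : Fin 2, ∀ y : ℝ, 0 < (if a = 0 then (1 : ℝ) else -1) * y →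
        |y| = (if a = 0 then (1 : ℝ) else -1) * y := by
      intro a y hy
      fin_cases a
      · simp at hy ⊢; exact le_of_lt hy
      · simp at hy ⊢; exact le_of_lt hy
    simp only [sg, Matrix.cons_val_zero, Matrix.cons_val_one] at h0 h1
    have h2' : 0 < (if c = 0 then (1 : ℝ) else -1) * x 2 := h2
    have h3' : (if a = 0 then (1 : ℝ) else -1) * x 0 + (if b = 0 then (1 : ℝ) else -1) * x 1
      + (if c = 0 then (1 : ℝ) else -1) * x 2 ≤ s := h3
    rw [key a _ h0, key b _ h1, key c _ h2']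
    exact h3'
  have h := measure_mono (μ := volume) hsub
  rw [hU, vol_oct_le hs] at h
  have h8 : (8 : ENNReal) = ENNReal.ofReal 8 := by simp
  have hsix : ENNReal.ofReal (4 / 3 * s ^ 3) = 8 * ENNReal.ofReal (s ^ 3 / 6) := by
    rw [h8, ← ENNReal.ofReal_mul (by norm_num)]
    congr 1; ring
  rw [hsix] at h
  exact (ENNReal.mul_le_mul_iff_right (by norm_num) (by norm_num)).1 h

theorem vol_hyper (i : Fin 3) : volume {x : Fin 3 → ℝ | x i = 0} = 0 := by
  have := MeasureTheory.Measure.pi_hyperplane (fun _ : Fin 3 => (volume : Measure ℝ)) i (0 : ℝ)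
  exact this

theorem vol_SimpC_le {s : ℝ} (hs : 0 ≤ s) : volume (SimpC s) ≤ ENNReal.ofReal (s ^ 3 / 6) := by
  have hsub : SimpC s ⊆ SimpP s ∪ ({x | x 0 = 0} ∪ ({x | x 1 = 0} ∪ {x | x 2 = 0})) := by
    rintro x ⟨h0, h1, h2, h3⟩
    by_cases g0 : x 0 = 0
    · right; left; exact g0
    by_cases g1 : x 1 = 0
    · right; right; left; exact g1
    by_cases g2 : x 2 = 0
    · right; right; right; exact g2
    left
    exact ⟨lt_of_le_of_ne h0 (Ne.symm g0), lt_of_le_of_ne h1 (Ne.symm g1),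
      lt_of_le_of_ne h2 (Ne.symm g2), h3⟩
  calc volume (SimpC s) ≤ _ := measure_mono hsub
    _ ≤ volume (SimpP s) + _ := measure_union_le _ _
    _ ≤ volume (SimpP s) + (volume {x : Fin 3 → ℝ | x 0 = 0} + (volume {x : Fin 3 → ℝ | x 1 = 0}
        + volume {x : Fin 3 → ℝ | x 2 = 0})) := by
        gcongr
        refine le_trans (measure_union_le _ _) ?_
        gcongr
        exact measure_union_le _ _
    _ = volume (SimpP s) := by simp [vol_hyper]
    _ ≤ _ := vol_SimpP_le hs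

theorem le_vol_SimpO {s : ℝ} (hs : 0 ≤ s) : ENNReal.ofReal (s ^ 3 / 6) ≤ volume (SimpO s) := by
  have hsub : {x : Fin 3 → ℝ | |x 0| + |x 1| + |x 2| < s} ⊆
      (⋃ k : Fin 2 × Fin 2 × Fin 2, {x : Fin 3 → ℝ | (fun i => sg k i * x i) ∈ SimpO s}) ∪
      ({x | x 0 = 0} ∪ ({x | x 1 = 0} ∪ {x | x 2 = 0})) := by
    intro x hx
    simp only [Set.mem_ofPred_eq] at hx
    by_cases g0 : x 0 = 0
    · right; left; exact g0
    by_cases g1 : x 1 = 0
    · right; right; left; exact g1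
    by_cases g2 : x 2 = 0
    · right; right; right; exact g2
    left
    simp only [Set.mem_iUnion]
    have key : ∀ y : ℝ, y ≠ 0 → ∃ a : Fin 2, |y| = (if a = 0 then (1 : ℝ) else -1) * y := by
      intro y hy
      rcases abs_cases y with ⟨h, h'⟩ | ⟨h, h'⟩
      · exact ⟨0, by simp [h]⟩
      · exact ⟨1, by simp [h]⟩
    obtain ⟨a, ha⟩ := key _ g0
    obtain ⟨b, hb⟩ := key _ g1
    obtain ⟨c, hc⟩ := key _ g2
    refine ⟨(a, b, c), ?_, ?_, ?_, ?_⟩
    · show 0 < (if a = 0 then (1 : ℝ) else -1) * x 0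
      rw [← ha]; exact abs_pos.2 g0
    · show 0 < (if b = 0 then (1 : ℝ) else -1) * x 1
      rw [← hb]; exact abs_pos.2 g1
    · show 0 < (if c = 0 then (1 : ℝ) else -1) * x 2
      rw [← hc]; exact abs_pos.2 g2
    · show (if a = 0 then (1 : ℝ) else -1) * x 0 + (if b = 0 then (1 : ℝ) else -1) * x 1
        + (if c = 0 then (1 : ℝ) else -1) * x 2 < s
      rw [← ha, ← hb, ← hc]; exact hx
  have h : volume {x : Fin 3 → ℝ | |x 0| + |x 1| + |x 2| < s} ≤ 8 * volume (SimpO s) := by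
    calc _ ≤ _ := measure_mono hsub
      _ ≤ volume (⋃ k : Fin 2 × Fin 2 × Fin 2,
          {x : Fin 3 → ℝ | (fun i => sg k i * x i) ∈ SimpO s}) + _ := measure_union_le _ _
      _ ≤ (∑ k : Fin 2 × Fin 2 × Fin 2,
          volume {x : Fin 3 → ℝ | (fun i => sg k i * x i) ∈ SimpO s}) +
          (volume {x : Fin 3 → ℝ | x 0 = 0} + (volume {x : Fin 3 → ℝ | x 1 = 0}
        + volume {x : Fin 3 → ℝ | x 2 = 0})) := by
          gcongr
          · exact measure_iUnion_fintype_le _ _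
          · refine le_trans (measure_union_le _ _) ?_
            gcongr
            exact measure_union_le _ _
      _ = 8 * volume (SimpO s) := by
          simp only [vol_flip, vol_hyper]
          simp
  rw [vol_oct_lt hs] at h
  have h8 : (8 : ENNReal) = ENNReal.ofReal 8 := by simp
  have hsix : ENNReal.ofReal (4 / 3 * s ^ 3) = 8 * ENNReal.ofReal (s ^ 3 / 6) := by
    rw [h8, ← ENNReal.ofReal_mul (by norm_num)]
    congr 1; ring
  rw [hsix] at h
  exact (ENNReal.mul_le_mul_iff_right (by norm_num) (by norm_num)).1 h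

end Pool.Agent.Helper84.Tet
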