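import Pool.Agent.Helper84.Tet.Final
set_option autoImplicit false

/-! The lattice packing density of the tetrahedron is at most `18/49` (from the bodies `Kb e`, `e → 0`). -/

namespace Pool.Agent.Helper84.Tet
open MeasureTheory Filter Topology
open scoped Pointwise ENNReal

/-- the homothety `x ↦ s • x` -/
noncomputable def hom (s : ℝ) (hs : s ≠ 0) : E3 ≃L[ℝ] E3 := ContinuousLinearEquiv.smulLeft (Units.mk0 s hs)

theorem hom_apply (s : ℝ) (hs : s ≠ 0) (x : E3) : hom s hs x = s • x := rfl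

theorem covolume_hom (Λ : Submodule ℤ E3) [DiscreteTopology Λ] [IsZLattice ℝ Λ] (s : ℝ) (hs : 0 < s) :
    ZLattice.covolume (ZLattice.comap ℝ Λ (hom s hs.ne').toLinearMap) = (s ^ 3)⁻¹ * ZLattice.covolume Λ := by
  set ν : Measure E3 := ENNReal.ofReal (s ^ 3) • volume with hν
  have h3 : 0 < s ^ 3 := by positivity
  have hc0 : ENNReal.ofReal (s ^ 3) ≠ 0 := by simpa using h3
  have hct : ENNReal.ofReal (s ^ 3) ≠ ⊤ := ENNReal.ofReal_ne_top
  have : Measure.IsAddHaarMeasure ν := Measure.IsAddHaarMeasure.smul volume hc0 hct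
  have hmp : MeasurePreserving (hom s hs.ne') ν volume := by
    refine ⟨(hom s hs.ne').continuous.measurable, ?_⟩
    have h1 : (⇑(hom s hs.ne') : E3 → E3) = fun x => s • x := rfl
    rw [hν, Measure.map_smul, h1, Measure.map_addHaar_smul volume hs.ne', smul_smul]
    have h2 : Module.finrank ℝ E3 = 3 := by simp
    rw [h2, abs_of_pos (by positivity), ← ENNReal.ofReal_mul h3.le, mul_inv_cancel₀ h3.ne', ENNReal.ofReal_one, one_smul]
  have h1 := ZLattice.covolume_comap Λ volume ν hmp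
  set L := ZLattice.comap ℝ Λ (hom s hs.ne').toLinearMap with hL
  have hb := ZLattice.isAddFundamentalDomain (Module.Free.chooseBasis ℤ L) ν
  have hb' := ZLattice.isAddFundamentalDomain (Module.Free.chooseBasis ℤ L) (volume : Measure E3)
  rw [ZLattice.covolume_eq_measure_fundamentalDomain L ν hb] at h1
  rw [ZLattice.covolume_eq_measure_fundamentalDomain L volume hb', ← h1, hν, measureReal_ennreal_smul_apply,
    ENNReal.toReal_ofReal h3.le, ← mul_assoc, inv_mul_cancel₀ h3.ne', one_mul]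

theorem covolume_tet (Λ : Submodule ℤ E3) [DiscreteTopology Λ] [IsZLattice ℝ Λ]
    (hp : IsPacking tetrahedron (Λ : Set E3)) : 196 / 27 ≤ ZLattice.covolume Λ := by
  have key : ∀ e : ℝ, 0 < e → e ≤ 1 / 10 ^ 9 → 196 / 27 ≤ (1 + e) ^ 3 * ZLattice.covolume Λ := by
    intro e he he'
    have h1 : (0 : ℝ) < 1 + e := by linarith
    have hs : 0 < (1 + e)⁻¹ := inv_pos.2 h1
    set L := ZLattice.comap ℝ Λ (hom (1 + e)⁻¹ hs.ne').toLinearMap with hL
    have hpL : IsPacking (Kb e) (L : Set E3) := by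
      intro u hu v hv huv
      have hu' : (1 + e)⁻¹ • u ∈ Λ := hu
      have hv' : (1 + e)⁻¹ • v ∈ Λ := hv
      have hne : (1 + e)⁻¹ • u ≠ (1 + e)⁻¹ • v := fun h => huv (smul_right_injective E3 hs.ne' h)
      have h2 := hp _ hu' _ hv' hne
      have hsub : ∀ w : E3, interior (w +ᵥ Kb e) ⊆ (1 + e) • interior ((1 + e)⁻¹ • w +ᵥ tetrahedron) := by
        intro w
        rw [← interior_smul₀ h1.ne']
        refine interior_mono ?_
        rintro _ ⟨x, hx, rfl⟩
        obtain ⟨y, hy, hyx⟩ := Kb_subset he.le le_rfl hx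
        refine ⟨(1 + e)⁻¹ • w + y, ⟨y, hy, rfl⟩, ?_⟩
        have hyx' : (1 + e) • y = x := hyx
        show (1 + e) • ((1 + e)⁻¹ • w + y) = w + x
        rw [smul_add, smul_smul, mul_inv_cancel₀ h1.ne', one_smul, hyx']
      refine Set.disjoint_of_subset (hsub u) (hsub v) ?_
      rw [Set.disjoint_left] at h2 ⊢
      rintro _ ⟨x, hx, rfl⟩ ⟨y, hy, hxy⟩
      have : y = x := smul_right_injective E3 h1.ne' hxy
      subst this
      exact h2 hx hy
    have h2 := covolume_ge' he he' L hpL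
    rw [covolume_hom Λ _ hs] at h2
    have h3 : (((1 + e)⁻¹) ^ 3)⁻¹ = (1 + e) ^ 3 := by rw [inv_pow, inv_inv]
    rw [h3] at h2
    linarith
  have hlim : Tendsto (fun e : ℝ => (1 + e) ^ 3 * ZLattice.covolume Λ) (𝓝[>] 0) (𝓝 ((1 + 0) ^ 3 * ZLattice.covolume Λ)) := by
    refine Tendsto.mono_left ?_ nhdsWithin_le_nhds
    exact ((continuous_const.add continuous_id).pow 3 |>.mul continuous_const).tendsto 0
  rw [add_zero, one_pow, one_mul] at hlim
  refine ge_of_tendsto hlim ?_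
  have h1 : ∀ᶠ e : ℝ in 𝓝[>] 0, e ∈ Set.Ioc (0 : ℝ) (1 / 10 ^ 9) := Ioc_mem_nhdsGT (by norm_num)
  filter_upwards [h1] with e he
  exact key e he.1 he.2

theorem tetrahedron_subset_Kb0 : tetrahedron ⊆ Kb 0 := tetrahedron_subset_Kb le_rfl

/-- Hoylman's theorem: `δ_L(tetrahedron) ≤ 18/49`. -/
theorem deltaL_tetrahedron_le : deltaL tetrahedron ≤ 18 / 49 := by
  have hcomp : IsCompact tetrahedron := by
    unfold tetrahedron
    exact Set.Finite.isCompact_convexHull ℝ (Set.toFinite _)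
  have hvol : volume tetrahedron ≤ ENNReal.ofReal (8 / 3) := by
    have h1 : ∀ e : ℝ, 0 < e → volume tetrahedron ≤ ENNReal.ofReal (8 / 3 * (1 + e) ^ 3 - 2 * e * (83 / 125 + e) ^ 2) :=
      fun e he => (measure_mono (tetrahedron_subset_Kb he.le)).trans (vol_Kb_le he)
    have hlim : Tendsto (fun e : ℝ => ENNReal.ofReal (8 / 3 * (1 + e) ^ 3 - 2 * e * (83 / 125 + e) ^ 2)) (𝓝[>] 0)
        (𝓝 (ENNReal.ofReal (8 / 3 * (1 + 0) ^ 3 - 2 * 0 * (83 / 125 + 0) ^ 2))) := by
      refine Tendsto.mono_left ?_ nhdsWithin_le_nhds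
      refine (ENNReal.continuous_ofReal.tendsto _).comp ?_
      have : Continuous (fun e : ℝ => 8 / 3 * (1 + e) ^ 3 - 2 * e * (83 / 125 + e) ^ 2) := by continuity
      exact this.tendsto 0
    have h2 : (8 / 3 * (1 + 0) ^ 3 - 2 * 0 * (83 / 125 + 0) ^ 2 : ℝ) = 8 / 3 := by norm_num
    rw [h2] at hlim
    refine ge_of_tendsto hlim ?_
    filter_upwards [self_mem_nhdsWithin] with e he
    exact h1 e he
  unfold deltaL
  refine iSup_le (fun Λ => iSup_le (fun h1 => iSup_le (fun h2 => iSup_le (fun h3 => ?_))))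
  refine le_trans (density_le tetrahedron hcomp Λ) ?_
  have h18 : (18 / 49 : ℝ≥0∞) = ENNReal.ofReal (8 / 3) / ENNReal.ofReal (196 / 27) := by
    rw [← ENNReal.ofReal_div_of_pos (by norm_num)]
    rw [show (8 / 3 / (196 / 27) : ℝ) = 18 / 49 by norm_num, ENNReal.ofReal_div_of_pos (by norm_num)]
    simp
  rw [h18]
  exact ENNReal.div_le_div hvol (ENNReal.ofReal_le_ofReal (covolume_tet Λ h3))

end Pool.Agent.Helper84.Tet
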