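import Mathlib
set_option autoImplicit false
namespace Pool.Agent.Helper84.Tet

/-- `(x,y,z)` lies outside the open polytope `|x|,|y|,|z| < 2`, `|x|+|y|+|z| < 4`. -/
def OutD (x y z : ℝ) : Prop := 2 ≤ |x| ∨ 2 ≤ |y| ∨ 2 ≤ |z| ∨ 4 ≤ |x| + |y| + |z|

theorem OutD.alts {x y z : ℝ} (h : OutD x y z) :
    0 ≤ x - 2 ∨ 0 ≤ -x - 2 ∨ 0 ≤ y - 2 ∨ 0 ≤ -y - 2 ∨ 0 ≤ z - 2 ∨ 0 ≤ -z - 2 ∨
    0 ≤ x + y + z - 4 ∨ 0 ≤ -x + y + z - 4 ∨ 0 ≤ x - y + z - 4 ∨ 0 ≤ -x - y + z - 4 ∨
    0 ≤ x + y - z - 4 ∨ 0 ≤ -x + y - z - 4 ∨ 0 ≤ x - y - z - 4 ∨ 0 ≤ -x - y - z - 4 := by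
  rcases h with h | h | h | h
  · rcases abs_cases x with ⟨h1, h2⟩ | ⟨h1, h2⟩
    · left; linarith
    · right; left; linarith
  · rcases abs_cases y with ⟨h1, h2⟩ | ⟨h1, h2⟩
    · right; right; left; linarith
    · right; right; right; left; linarith
  · rcases abs_cases z with ⟨h1, h2⟩ | ⟨h1, h2⟩
    · right; right; right; right; left; linarith
    · right; right; right; right; right; left; linarith
  · right; right; right; right; right; right
    rcases abs_cases x with ⟨h1, h2⟩ | ⟨h1, h2⟩ <;> rcases abs_cases y with ⟨h3, h4⟩ | ⟨h3, h4⟩ <;>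
      rcases abs_cases z with ⟨h5, h6⟩ | ⟨h5, h6⟩
    · left; linarith
    · right; right; right; right; left; linarith
    · right; right; left; linarith
    · right; right; right; right; right; right; left; linarith
    · right; left; linarith
    · right; right; right; right; right; left; linarith
    · right; right; right; left; linarith
    · right; right; right; right; right; right; right; linarith

/-- The thirteen combinations (up to sign) with coefficients in `{-1,0,1}` of the rows of a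
`3 × 3` matrix satisfy `O`. -/
structure Adm (O : ℝ → ℝ → ℝ → Prop) (m11 m12 m13 m21 m22 m23 m31 m32 m33 : ℝ) : Prop where
  o100 : O m11 m12 m13
  o010 : O m21 m22 m23
  o001 : O m31 m32 m33
  o110 : O (m11 + m21) (m12 + m22) (m13 + m23)
  o1m0 : O (m11 - m21) (m12 - m22) (m13 - m23)
  o101 : O (m11 + m31) (m12 + m32) (m13 + m33)
  o10m : O (m11 - m31) (m12 - m32) (m13 - m33)
  o011 : O (m21 + m31) (m22 + m32) (m23 + m33)
  o01m : O (m21 - m31) (m22 - m32) (m23 - m33)
  o111 : O (m11 + m21 + m31) (m12 + m22 + m32) (m13 + m23 + m33)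
  o11m : O (m11 + m21 - m31) (m12 + m22 - m32) (m13 + m23 - m33)
  o1m1 : O (m11 - m21 + m31) (m12 - m22 + m32) (m13 - m23 + m33)
  o1mm : O (m11 - m21 - m31) (m12 - m22 - m32) (m13 - m23 - m33)

end Pool.Agent.Helper84.Tet
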