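import Pool.Agent.Helper84.Tet.PackDefs
set_option autoImplicit false
namespace Pool.Agent.Helper84.Tet
open MeasureTheory Filter Topology
open scoped Pointwise ENNReal

theorem vol_closedBall_eq {r : ℝ} (hr : 0 ≤ r) :
    volume (Metric.closedBall (0 : E3) r) =
      ENNReal.ofReal (r ^ 3) * volume (Metric.closedBall (0 : E3) 1) := by
  rw [Measure.addHaar_closedBall' volume (0 : E3) hr]
  simp

theorem count_bound (Λ : Submodule ℤ E3) [DiscreteTopology Λ] [IsZLattice ℝ Λ] {ρ s : ℝ}
    (F : Set E3) (hF : IsAddFundamentalDomain Λ F volume) (hFm : MeasurableSet F)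
    (hFρ : F ⊆ Metric.closedBall 0 ρ) :
    (∑' u : Λ, (if ‖(u : E3)‖ ≤ s then (1 : ℝ≥0∞) else 0)) * volume F ≤
      volume (Metric.closedBall (0 : E3) (s + ρ)) := by
  have : Countable Λ := inferInstance
  rw [← ENNReal.tsum_mul_right]
  let G : Λ → Set E3 := fun u => if ‖(u : E3)‖ ≤ s then u +ᵥ F else ∅
  have hG : ∀ u : Λ, (if ‖(u : E3)‖ ≤ s then (1 : ℝ≥0∞) else 0) * volume F = volume (G u) := by
    intro u
    by_cases h : ‖(u : E3)‖ ≤ s
    · simp only [G, if_pos h, one_mul]
      exact (measure_vadd volume (u : E3) F).symm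
    · simp only [G, if_neg h, zero_mul, measure_empty]
  simp only [hG]
  rw [← measure_iUnion₀]
  · apply measure_mono
    intro x hx
    simp only [Set.mem_iUnion] at hx
    obtain ⟨u, hu⟩ := hx
    by_cases h : ‖(u : E3)‖ ≤ s
    · simp only [G, if_pos h] at hu
      obtain ⟨y, hy, rfl⟩ := hu
      have hy2 := hFρ hy
      rw [mem_closedBall_zero_iff] at hy2 ⊢
      calc ‖(u : E3) + y‖ ≤ ‖(u : E3)‖ + ‖y‖ := norm_add_le _ _
        _ ≤ s + ρ := add_le_add h hy2
    · simp only [G, if_neg h] at hu
      exact absurd hu (Set.notMem_empty _)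
  · intro u v huv
    by_cases h : ‖(u : E3)‖ ≤ s
    · by_cases h' : ‖(v : E3)‖ ≤ s
      · simp only [Function.onFun, G, if_pos h, if_pos h']
        exact hF.aedisjoint huv
      · simp only [Function.onFun, G, if_neg h']
        simp [AEDisjoint]
    · simp only [Function.onFun, G, if_neg h]
      simp [AEDisjoint]
  · intro u
    by_cases h : ‖(u : E3)‖ ≤ s
    · simp only [G, if_pos h]
      exact (hFm.const_vadd (u : E3)).nullMeasurableSet
    · simp only [G, if_neg h]
      exact MeasurableSet.empty.nullMeasurableSet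

theorem density_le (K : Set E3) (hK : IsCompact K) (Λ : Submodule ℤ E3) [DiscreteTopology Λ]
    [IsZLattice ℝ Λ] :
    density K (Λ : Set E3) ≤ volume K / ENNReal.ofReal (ZLattice.covolume Λ) := by
  obtain ⟨R, hR⟩ := hK.isBounded.subset_closedBall (0 : E3)
  let B := Module.Free.chooseBasis ℤ Λ
  have fund := ZLattice.isAddFundamentalDomain B volume
  set F := ZSpan.fundamentalDomain (B.ofZLatticeBasis ℝ) with hF
  have hFm : MeasurableSet F := ZSpan.fundamentalDomain_measurableSet _
  obtain ⟨ρ, hρ⟩ := (ZSpan.fundamentalDomain_isBounded (B.ofZLatticeBasis ℝ)).subset_closedBall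
    (0 : E3)
  have hcov : ZLattice.covolume Λ = volume.real F :=
    ZLattice.covolume_eq_measure_fundamentalDomain Λ volume fund
  have hcovpos : 0 < ZLattice.covolume Λ := ZLattice.covolume_pos Λ volume
  have hfin : volume F ≠ ⊤ := by
    intro h
    rw [hcov, Measure.real, h] at hcovpos
    simp at hcovpos
  have hvF : volume F = ENNReal.ofReal (ZLattice.covolume Λ) := by
    rw [hcov, Measure.real, ENNReal.ofReal_toReal hfin]
  rw [← hvF]
  have hF0 : volume F ≠ 0 := by
    rw [hvF]; exact (ENNReal.ofReal_pos.2 hcovpos).ne'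
  -- bound for each r
  have hB1 : volume (Metric.closedBall (0 : E3) 1) ≠ 0 :=
    (Metric.measure_closedBall_pos volume _ one_pos).ne'
  have hB1' : volume (Metric.closedBall (0 : E3) 1) ≠ ⊤ := measure_closedBall_lt_top.ne
  have hsum : ∀ r : ℝ, (∑' u : (Λ : Set E3),
      volume (((u : E3) +ᵥ K) ∩ Metric.closedBall (0 : E3) r)) ≤
      volume (Metric.closedBall (0 : E3) (r + R + ρ)) / volume F * volume K := by
    intro r
    have h1 : (∑' u : (Λ : Set E3), volume (((u : E3) +ᵥ K) ∩ Metric.closedBall (0 : E3) r)) ≤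
        (∑' u : Λ, (if ‖(u : E3)‖ ≤ r + R then (1 : ℝ≥0∞) else 0)) * volume K := by
      rw [← ENNReal.tsum_mul_right]
      refine ENNReal.tsum_le_tsum (fun u => ?_)
      by_cases h : ‖(u : E3)‖ ≤ r + R
      · rw [if_pos h, one_mul]
        calc _ ≤ volume ((u : E3) +ᵥ K) := measure_mono Set.inter_subset_left
          _ = volume K := measure_vadd volume (u : E3) K
      · rw [if_neg h, zero_mul]
        have : ((u : E3) +ᵥ K) ∩ Metric.closedBall (0 : E3) r = ∅ := by
          rw [Set.eq_empty_iff_forall_notMem]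
          rintro x ⟨⟨y, hy, rfl⟩, hx⟩
          apply h
          have hy2 := hR hy
          rw [mem_closedBall_zero_iff] at hy2 hx
          have : (u : E3) = ((u : E3) + y) - y := by abel
          rw [this]
          calc ‖((u : E3) + y) - y‖ ≤ ‖(u : E3) + y‖ + ‖y‖ := norm_sub_le _ _
            _ ≤ r + R := add_le_add hx hy2
        rw [this, measure_empty]
    refine le_trans h1 ?_
    gcongr
    rw [ENNReal.le_div_iff_mul_le (Or.inl hF0) (Or.inl hfin)]
    exact count_bound Λ F fund hFm hρ
  -- limit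
  have hle : ∀ᶠ r : ℝ in atTop, (∑' u : (Λ : Set E3),
      volume (((u : E3) +ᵥ K) ∩ Metric.closedBall (0 : E3) r)) /
      volume (Metric.closedBall (0 : E3) r) ≤
      ENNReal.ofReal (((r + (R + ρ)) / r) ^ 3) * (volume K / volume F) := by
    filter_upwards [eventually_gt_atTop (0 : ℝ), eventually_gt_atTop (-(R + ρ))] with r hr0 hr1
    have hr2 : 0 ≤ r + R + ρ := by linarith
    calc _ ≤ volume (Metric.closedBall (0 : E3) (r + R + ρ)) / volume F * volume K /
          volume (Metric.closedBall (0 : E3) r) := by gcongr; exact hsum r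
      _ = _ := by
        rw [vol_closedBall_eq hr2, vol_closedBall_eq hr0.le]
        have hr3 : ENNReal.ofReal (r ^ 3) ≠ 0 := (ENNReal.ofReal_pos.2 (by positivity)).ne'
        rw [div_pow, ENNReal.ofReal_div_of_pos (by positivity), ← add_assoc]
        simp only [div_eq_mul_inv]
        rw [ENNReal.mul_inv (Or.inl hr3) (Or.inl ENNReal.ofReal_ne_top)]
        calc ENNReal.ofReal ((r + R + ρ) ^ 3) * volume (Metric.closedBall (0 : E3) 1) *
              (volume F)⁻¹ * volume K *
              ((ENNReal.ofReal (r ^ 3))⁻¹ * (volume (Metric.closedBall (0 : E3) 1))⁻¹)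
            = (volume (Metric.closedBall (0 : E3) 1) * (volume (Metric.closedBall (0 : E3) 1))⁻¹) *
              (ENNReal.ofReal ((r + R + ρ) ^ 3) * (ENNReal.ofReal (r ^ 3))⁻¹ *
              (volume K * (volume F)⁻¹)) := by ring
          _ = _ := by rw [ENNReal.mul_inv_cancel hB1 hB1', one_mul]
  have hlim : Tendsto (fun r : ℝ => ENNReal.ofReal (((r + (R + ρ)) / r) ^ 3) *
      (volume K / volume F)) atTop (𝓝 (ENNReal.ofReal (1 ^ 3) * (volume K / volume F))) := by
    apply ENNReal.Tendsto.mul_const
    · apply ENNReal.tendsto_ofReal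
      apply Tendsto.pow
      have h1 : Tendsto (fun r : ℝ => 1 + (R + ρ) / r) atTop (𝓝 (1 + 0)) :=
        tendsto_const_nhds.add (tendsto_const_nhds.div_atTop tendsto_id)
      rw [add_zero] at h1
      refine h1.congr' ?_
      filter_upwards [eventually_gt_atTop (0 : ℝ)] with r hr
      field_simp
    · left; simp
  rw [one_pow, ENNReal.ofReal_one, one_mul] at hlim
  calc density K (Λ : Set E3) ≤ limsup (fun r : ℝ => ENNReal.ofReal (((r + (R + ρ)) / r) ^ 3) *
      (volume K / volume F)) atTop := limsup_le_limsup hle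
    _ = volume K / volume F := hlim.limsup_eq

end Pool.Agent.Helper84.Tet
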