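import Pool.Agent.Helper84.Tet.VolK
import Pool.Agent.Helper84.Tet.Dens
import Pool.Agent.Helper84.Tet.Lattice2
set_option autoImplicit false
namespace Pool.Agent.Helper84.Tet
open MeasureTheory Filter Topology
open scoped Pointwise ENNReal

theorem out_of_packing {e : ℝ} (he : 0 < e) (he' : e ≤ 1 / 1000) (Λ : Submodule ℤ E3)
    (hp : IsPacking (Kb e) (Λ : Set E3)) (v : E3) (hv : v ∈ Λ) (hv0 : v ≠ 0) :
    Out e (v 0) (v 1) (v 2) := by
  by_contra hcon
  obtain ⟨a, ha, b, hb, hab⟩ := exists_diff he he' v hcon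
  have h := hp v hv 0 Λ.zero_mem hv0
  rw [interior_vadd, interior_vadd, zero_vadd, Set.disjoint_left] at h
  apply h _ ha
  refine ⟨b, hb, ?_⟩
  show v + b = a
  rw [hab]; abel

theorem covolume_ge' {e : ℝ} (he : 0 < e) (he' : e ≤ 1 / 10 ^ 9) (Λ : Submodule ℤ E3)
    [DiscreteTopology Λ] [IsZLattice ℝ Λ] (hp : IsPacking (Kb e) (Λ : Set E3)) :
    196 / 27 + 97 / 5 * e ≤ ZLattice.covolume Λ := by
  have he'' : e ≤ 1 / 1000 := le_trans he' (by norm_num)
  let f := (EuclideanSpace.equiv (Fin 3) ℝ).symm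
  have hf : MeasurePreserving f := PiLp.volume_preserving_toLp (Fin 3)
  rw [← ZLattice.covolume_comap Λ volume volume hf]
  apply covolume_ge _ he he'
  intro v hv hv0
  have hv2 : f v ∈ Λ := hv
  have := out_of_packing he he'' Λ hp (f v) hv2 (by
    intro h
    apply hv0
    exact f.injective (by rw [h, map_zero]))
  exact this

theorem deltaL_Kb_lt {e : ℝ} (he : 0 < e) (he' : e ≤ 1 / 10 ^ 9) : deltaL (Kb e) < 18 / 49 := by
  set V : ℝ := 8 / 3 * (1 + e) ^ 3 - 2 * e * (83 / 125 + e) ^ 2 with hV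
  set D : ℝ := 196 / 27 + 97 / 5 * e with hD
  have hDpos : 0 < D := by positivity
  have hle : deltaL (Kb e) ≤ ENNReal.ofReal (V / D) := by
    unfold deltaL
    refine iSup_le (fun Λ => iSup_le (fun h1 => iSup_le (fun h2 => iSup_le (fun h3 => ?_))))
    refine le_trans (density_le (Kb e) (Kb_compact e) Λ) ?_
    rw [ENNReal.ofReal_div_of_pos hDpos]
    exact ENNReal.div_le_div (vol_Kb_le he) (ENNReal.ofReal_le_ofReal (covolume_ge' he he' Λ h3))
  refine lt_of_le_of_lt hle ?_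
  have h18 : (18 / 49 : ℝ≥0∞) = ENNReal.ofReal (18 / 49) := by
    rw [ENNReal.ofReal_div_of_pos (by norm_num)]
    simp
  rw [h18]
  apply (ENNReal.ofReal_lt_ofReal_iff (by norm_num)).2
  rw [div_lt_div_iff₀ hDpos (by norm_num)]
  have he2 : e ^ 2 ≤ 1 / 10 ^ 9 * e := by rw [sq]; exact mul_le_mul_of_nonneg_right he' he.le
  have he3 : e ^ 3 ≤ 1 / 10 ^ 9 * e := by
    calc e ^ 3 = e ^ 2 * e := by ring
      _ ≤ (1 / 10 ^ 9 * e) * e := mul_le_mul_of_nonneg_right he2 he.le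
      _ = 1 / 10 ^ 9 * e ^ 2 := by ring
      _ ≤ 1 / 10 ^ 9 * (1 / 10 ^ 9 * e) := by
        apply mul_le_mul_of_nonneg_left he2 (by norm_num)
      _ ≤ 1 / 10 ^ 9 * e := by nlinarith
  have he2' : 0 ≤ e ^ 2 := by positivity
  have he3' : 0 ≤ e ^ 3 := by positivity
  rw [hV, hD]
  norm_num at he2 he3 ⊢
  nlinarith

/-- Halfspace description of the tetrahedron: the direction used below. -/
theorem mem_tetrahedron {v : E3} (h1 : -v 0 - v 1 - v 2 ≤ 1) (h2 : -v 0 + v 1 + v 2 ≤ 1)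
    (h3 : v 0 - v 1 + v 2 ≤ 1) (h4 : v 0 + v 1 - v 2 ≤ 1) : v ∈ tetrahedron := by
  have hmem := (convex_convexHull ℝ ({!₂[(1 : ℝ), 1, 1], !₂[(1 : ℝ), -1, -1], !₂[(-1 : ℝ), 1, -1],
    !₂[(-1 : ℝ), -1, 1]} : Set E3)).sum_mem (t := (Finset.univ : Finset (Fin 4)))
    (w := ![(1 - (-v 0 - v 1 - v 2)) / 4, (1 - (-v 0 + v 1 + v 2)) / 4,
      (1 - (v 0 - v 1 + v 2)) / 4, (1 - (v 0 + v 1 - v 2)) / 4])
    (z := ![!₂[(1 : ℝ), 1, 1], !₂[(1 : ℝ), -1, -1], !₂[(-1 : ℝ), 1, -1], !₂[(-1 : ℝ), -1, 1]])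
    ?_ ?_ ?_
  · unfold tetrahedron
    convert hmem using 1
    rw [Fin.sum_univ_four]
    ext i
    fin_cases i <;> simp <;> ring
  · intro i _
    fin_cases i <;> simp <;> linarith
  · rw [Fin.sum_univ_four]
    simp
    ring
  · intro i _
    apply subset_convexHull
    fin_cases i <;> simp

theorem tetrahedron_subset_Kb {e : ℝ} (he : 0 ≤ e) : tetrahedron ⊆ Kb e := by
  apply convexHull_min _ (Kb_convex e)
  intro v hv
  simp only [Set.mem_insert_iff, Set.mem_singleton_iff] at hv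
  rcases hv with rfl | rfl | rfl | rfl <;> refine Kin_of_T he ?_ ?_ ?_ ?_ <;> simp <;> norm_num

theorem Kb_subset {e ε : ℝ} (he : 0 ≤ e) (heε : e ≤ ε) : Kb e ⊆ (1 + ε) • tetrahedron := by
  rintro v ⟨h1, h2, h3, h4, h5, h6, h7, h8, h9, h10, h11, h12, h13, h14, h15, h16⟩
  have hpos : (0 : ℝ) < 1 + ε := by linarith
  refine ⟨(1 + ε)⁻¹ • v, ?_, ?_⟩
  · have hinv : 0 < (1 + ε)⁻¹ := inv_pos.2 hpos
    have key : ∀ t : ℝ, t ≤ 1 + e → (1 + ε)⁻¹ * t ≤ 1 := by
      intro t ht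
      rw [inv_mul_le_iff₀ hpos]
      linarith
    apply mem_tetrahedron <;> simp only [PiLp.smul_apply, smul_eq_mul]
    · have := key _ h1; linarith
    · have := key _ h5; linarith
    · have := key _ h9; linarith
    · have := key _ h13; linarith
  · show (1 + ε) • ((1 + ε)⁻¹ • v) = v
    rw [smul_smul, mul_inv_cancel₀ hpos.ne', one_smul]

/-- The main theorem. -/
theorem main (ε : ℝ) (hε : 0 < ε) : ∃ K : Set E3, IsConvexBody K ∧ tetrahedron ⊆ K ∧
    K ⊆ (1 + ε) • tetrahedron ∧ deltaL K < 18 / 49 := by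
  set e : ℝ := min ε (1 / 10 ^ 9) with he
  have he0 : 0 < e := lt_min hε (by norm_num)
  have he1 : e ≤ 1 / 10 ^ 9 := min_le_right _ _
  have he2 : e ≤ ε := min_le_left _ _
  exact ⟨Kb e, Kb_convexBody he0, tetrahedron_subset_Kb he0.le, Kb_subset he0.le he2,
    deltaL_Kb_lt he0 he1⟩

end Pool.Agent.Helper84.Tet
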