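import Mathlib
set_option autoImplicit false
set_option linter.unusedVariables false
set_option maxRecDepth 100000
namespace Pool.Agent.Helper84.Tet

theorem main_local (a b c x u y v z w : ℝ) (h0 : 0 ≤ a) (h1 : 0 ≤ b) (h2 : 0 ≤ c) (h3 : 0 ≤ a + b - x - u + y + z) (h4 : 0 ≤ a + c + x + v - z - w) (h5 : 0 ≤ b + c + u - y - v + w) (h6 : 0 ≤ a + b + c - x - u - y - v - z - w + 2) (h7 : 0 ≤ x - (997/3000)) (h8 : 0 ≤ -x + (1003/3000)) (h9 : 0 ≤ u - (997/3000)) (h10 : 0 ≤ -u + (1003/3000)) (h11 : 0 ≤ y - (997/3000)) (h12 : 0 ≤ -y + (1003/3000)) (h13 : 0 ≤ v - (997/3000)) (h14 : 0 ≤ -v + (1003/3000)) (h15 : 0 ≤ z - (997/3000)) (h16 : 0 ≤ -z + (1003/3000)) (h17 : 0 ≤ w - (997/3000)) (h18 : 0 ≤ -w + (1003/3000)) (h19 : 0 ≤ -a + (1/1000)) (h20 : 0 ≤ -b + (1/1000)) (h21 : 0 ≤ -c + (1/1000)) :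
    196/27 + (621/200)*(a+b+c) + (77/100)*(2+a+b+c-x-u-y-v-z-w) ≤ (2+a)*(2+b)*(2+c) - x*y*w - z*u*v - (2+a)*(y*v) - (2+b)*(z*w) - (2+c)*(x*u) := by
  linarith [mul_nonneg h3 h3, mul_nonneg (mul_nonneg h0 h1) h2, mul_nonneg h6 h13, mul_nonneg h4 h6, sq_nonneg (y - v), mul_nonneg h6 h9, mul_nonneg h0 (sq_nonneg (y - v)), sq_nonneg (u + w - (2/3)), mul_nonneg h0 h19, mul_nonneg h4 h4, mul_nonneg h0 h11, mul_nonneg h6 h17, mul_nonneg h2 h21, mul_nonneg h1 h20, mul_nonneg h3 h14, mul_nonneg h21 (sq_nonneg (x + u - (2/3))), sq_nonneg (u + y - (2/3)), mul_nonneg h4 h5, mul_nonneg h1 (sq_nonneg (z - w)), mul_nonneg h1 h15, mul_nonneg h0 h13, sq_nonneg (y + z - (2/3)), mul_nonneg h5 h5, mul_nonneg h18 (sq_nonneg (x + y - (2/3))), mul_nonneg h2 (sq_nonneg (x - u)), sq_nonneg (x + v - (2/3)), mul_nonneg h3 h6, mul_nonneg h5 h16, mul_nonneg h6 h15, mul_nonneg h6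 h7, mul_nonneg h14 (sq_nonneg (u + z - (2/3))), mul_nonneg h11 (sq_nonneg (x - w)), mul_nonneg h17 (sq_nonneg (x - y)), mul_nonneg h9 (sq_nonneg (v - z)), mul_nonneg h7 (sq_nonneg (y - w)), sq_nonneg (x + z - (2/3)), mul_nonneg h5 h8, mul_nonneg h3 h4, mul_nonneg h8 (sq_nonneg (y + w - (2/3))), sq_nonneg (v + w - (2/3)), mul_nonneg h10 (sq_nonneg (v + z - (2/3))), mul_nonneg h1 h17, sq_nonneg (x - u), mul_nonneg h3 h5, sq_nonneg (z - w), mul_nonneg h19 (sq_nonneg (y + v - (2/3))), mul_nonneg h6 h11, mul_nonneg h12 (sq_nonneg (x + w - (2/3))), mul_nonneg h2 h7, mul_nonneg h13 (sq_nonneg (u - z)), mul_nonneg h3 h18, mul_nonneg h4 h12, mul_nonneg h5 h6, mul_nonneg h16 (sq_nonneg (u + v - (2/3))), mul_nonneg h20 (sq_nonneg (z + w - (2/3))), mul_nonneg h4 h10, mul_nonneg h15 (sq_nonneg (u - v)), mul_nonneg h2 h9]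

end Pool.Agent.Helper84.Tet
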