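import Pool.Agent.Helper84.Tet.Defs
import Pool.Agent.Helper84.Tet.LeafE0
set_option autoImplicit false
set_option maxRecDepth 100000
set_option linter.unusedVariables false
namespace Pool.Agent.Helper84.Tet

private theorem h99_class_E_1 (a b c x u y v z w : ℝ)
    (ha : 0 ≤ a) (hb : 0 ≤ b) (hc : 0 ≤ c) (hx : 0 ≤ x) (hu : 0 ≤ u) (hy : 0 ≤ y) (hv : 0 ≤ v) (hz : 0 ≤ z) (hw : 0 ≤ w)
    (r1 : 0 ≤ -a - x - z + 2) (r2 : 0 ≤ -b - u - y + 2) (r3 : 0 ≤ -c - v - w + 2) (k1 : 0 ≤ -a + (3/8)) (k2 : 0 ≤ -b + (3/8)) (k3 : 0 ≤ -c + (3/8))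
    (hadm : Adm OutD (2 + a) (-x) z u (2 + b) (-y) (-w) v (2 + c)) :
    0 ≤ a + u - w ∨ 0 ≤ b - x + v ∨ 0 ≤ c - y + z ∨ 0 ≤ a + b + c - x + u - y + v + z - w + 2 := by
  rcases hadm.o111.alts with h | h | h | h | h | h | h | h | h | h | h | h | h | h
  · exact Or.inl (by linarith only [h])
  · exfalso; linarith only [ha, hc, hu, hv, r3, h]
  · exact Or.inr (Or.inl (by linarith only [h]))
  · exfalso; linarith only [ha, hb, hv, hz, r1, h]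
  · exact Or.inr (Or.inr (Or.inl (by linarith only [h])))
  · exfalso; linarith only [hb, hc, hu, hz, r2, h]
  · exact Or.inr (Or.inr (Or.inr (by linarith only [h])))
  · exact Or.inr (Or.inr (Or.inr (by linarith only [ha, hc, hu, hv, r3, h])))
  · exact Or.inr (Or.inr (Or.inr (by linarith only [ha, hb, hv, hz, r1, h])))
  · exfalso; linarith only [ha, hb, hu, hy, hv, r1, r3, h]
  · exact Or.inr (Or.inr (Or.inr (by linarith only [hb, hc, hu, hz, r2, h])))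
  · exfalso; linarith only [ha, hc, hx, hu, hz, r2, r3, h]
  · exfalso; linarith only [hb, hc, hv, hz, hw, r1, r2, h]
  · exfalso; linarith only [ha, hb, hc, hu, hv, hz, r1, r2, r3, h]

theorem class_E (a b c x u y v z w : ℝ)
    (ha : 0 ≤ a) (hb : 0 ≤ b) (hc : 0 ≤ c) (hx : 0 ≤ x) (hu : 0 ≤ u) (hy : 0 ≤ y) (hv : 0 ≤ v) (hz : 0 ≤ z) (hw : 0 ≤ w)
    (r1 : 0 ≤ -a - x - z + 2) (r2 : 0 ≤ -b - u - y + 2) (r3 : 0 ≤ -c - v - w + 2) (k1 : 0 ≤ -a + (3/8)) (k2 : 0 ≤ -b + (3/8)) (k3 : 0 ≤ -c + (3/8))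
    (hadm : Adm OutD (2 + a) (-x) z u (2 + b) (-y) (-w) v (2 + c)) :
    (363/50:ℝ) ≤ (2+a)*(2+b)*(2+c) - x*y*w + z*u*v + (2+a)*(y*v) + (2+b)*(z*w) + (2+c)*(x*u) := by
  have n0 := h99_class_E_1 a b c x u y v z w ha hb hc hx hu hy hv hz hw r1 r2 r3 k1 k2 k3 hadm
  rcases n0 with d1 | d1 | d1 | d1
  · exact leaf_E_0 a b c x u y v z w ha hb hc hx hu hy hv hz hw r1 r2 d1
  · exact leaf_E_1 a b c x u y v z w ha hb hc hx hu hy hv hz hw r2 r3 d1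
  · exact leaf_E_2 a b c x u y v z w ha hb hc hx hu hy hv hz hw r1 r3 d1
  · exact leaf_E_3 a b c x u y v z w ha hb hc hx hu hy hv hz hw r1 r2 r3 k1 k2 k3 d1

end Pool.Agent.Helper84.Tet
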