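import Pool.Agent.Helper84.Tet.TreeA
import Pool.Agent.Helper84.Tet.TreeB
import Pool.Agent.Helper84.Tet.TreeC
import Pool.Agent.Helper84.Tet.TreeD1
import Pool.Agent.Helper84.Tet.TreeD2
import Pool.Agent.Helper84.Tet.TreeE
import Pool.Agent.Helper84.Tet.MainG
import Pool.Agent.Helper84.Tet.MainL
set_option autoImplicit false
namespace Pool.Agent.Helper84.Tet

/-- The symmetric conditions which differences of interior points of `K_e` satisfy, negated:
`Out e x y z` holds as soon as `(x,y,z)` is not such a difference. -/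
def Out (e x y z : ℝ) : Prop := OutD x y z ∧
  ¬ (|x| < 2 + 2 * e ∧ |y + z| ≤ 84 / 125 ∧ |y - z| ≤ 84 / 125) ∧
  ¬ (|y| < 2 + 2 * e ∧ |x + z| ≤ 84 / 125 ∧ |x - z| ≤ 84 / 125) ∧
  ¬ (|z| < 2 + 2 * e ∧ |x + y| ≤ 84 / 125 ∧ |x - y| ≤ 84 / 125) ∧
  ¬ (1 ≤ |x| ∧ 1 ≤ |y| ∧ 1 ≤ |z| ∧ |x| + |y| + |z| < 4 + e)

theorem Adm.imp {O O' : ℝ → ℝ → ℝ → Prop} {m11 m12 m13 m21 m22 m23 m31 m32 m33 : ℝ}
    (h : Adm O m11 m12 m13 m21 m22 m23 m31 m32 m33) (hO : ∀ x y z, O x y z → O' x y z) :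
    Adm O' m11 m12 m13 m21 m22 m23 m31 m32 m33 :=
  ⟨hO _ _ _ h.o100, hO _ _ _ h.o010, hO _ _ _ h.o001, hO _ _ _ h.o110, hO _ _ _ h.o1m0,
    hO _ _ _ h.o101, hO _ _ _ h.o10m, hO _ _ _ h.o011, hO _ _ _ h.o01m, hO _ _ _ h.o111,
    hO _ _ _ h.o11m, hO _ _ _ h.o1m1, hO _ _ _ h.o1mm⟩

theorem Out.neg {e x y z : ℝ} (h : Out e x y z) : Out e (-x) (-y) (-z) := by
  unfold Out OutD at *
  have e1 : ∀ s t : ℝ, |(-s) + (-t)| = |s + t| := fun s t => by rw [← abs_neg (s + t)]; ring_nf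
  have e2 : ∀ s t : ℝ, |(-s) - (-t)| = |s - t| := fun s t => by rw [← abs_neg (s - t)]; ring_nf
  simp only [abs_neg, e1, e2]
  exact h

theorem Out.swap12 {e x y z : ℝ} (h : Out e x y z) : Out e y x z := by
  unfold Out OutD at *
  rw [add_comm y x, abs_sub_comm y x]
  rw [add_comm |y| |x|]
  obtain ⟨h1, h2, h3, h4, h5⟩ := h
  refine ⟨?_, h3, h2, h4, fun hh => h5 ⟨hh.2.1, hh.1, hh.2.2⟩⟩
  rcases h1 with h1 | h1 | h1 | h1
  · exact Or.inr (Or.inl h1)
  · exact Or.inl h1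
  · exact Or.inr (Or.inr (Or.inl h1))
  · exact Or.inr (Or.inr (Or.inr h1))

theorem Out.swap23 {e x y z : ℝ} (h : Out e x y z) : Out e x z y := by
  unfold Out OutD at *
  rw [add_comm z y, abs_sub_comm z y]
  rw [add_right_comm |x| |z| |y|]
  obtain ⟨h1, h2, h3, h4, h5⟩ := h
  refine ⟨?_, h2, h4, h3, fun hh => h5 ⟨hh.1, hh.2.2.1, hh.2.1, hh.2.2.2⟩⟩
  rcases h1 with h1 | h1 | h1 | h1
  · exact Or.inl h1
  · exact Or.inr (Or.inr (Or.inl h1))
  · exact Or.inr (Or.inl h1)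
  · exact Or.inr (Or.inr (Or.inr h1))

theorem Out.flip1 {e x y z : ℝ} (h : Out e x y z) : Out e (-x) y z := by
  unfold Out OutD at *
  have e1 : ∀ s t : ℝ, |(-s) + t| = |s - t| := fun s t => by rw [← abs_neg (s - t)]; ring_nf
  have e2 : ∀ s t : ℝ, |(-s) - t| = |s + t| := fun s t => by rw [← abs_neg (s + t)]; ring_nf
  simp only [abs_neg, e1, e2]
  obtain ⟨h1, h2, h3, h4, h5⟩ := h
  exact ⟨h1, h2, fun hh => h3 ⟨hh.1, hh.2.2, hh.2.1⟩, fun hh => h4 ⟨hh.1, hh.2.2, hh.2.1⟩, h5⟩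

theorem Out.flip2 {e x y z : ℝ} (h : Out e x y z) : Out e x (-y) z :=
  (h.swap12.flip1).swap12

theorem Out.flip3 {e x y z : ℝ} (h : Out e x y z) : Out e x y (-z) :=
  (h.swap23.flip2).swap23

/-- The determinant of a `3 × 3` matrix. -/
def det3 (m11 m12 m13 m21 m22 m23 m31 m32 m33 : ℝ) : ℝ :=
  m11 * m22 * m33 + m12 * m23 * m31 + m13 * m21 * m32 - m11 * m23 * m32 - m22 * m13 * m31
    - m33 * m12 * m21

/-- The matrices to which the volume estimate applies. -/
structure Hyp (e m11 m12 m13 m21 m22 m23 m31 m32 m33 : ℝ) : Prop where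
  d1 : 2 ≤ m11
  d2 : 2 ≤ m22
  d3 : 2 ≤ m33
  k1 : m11 ≤ 19 / 8
  k2 : m22 ≤ 19 / 8
  k3 : m33 ≤ 19 / 8
  r1 : m11 + |m12| + |m13| ≤ 4
  r2 : m22 + |m21| + |m23| ≤ 4
  r3 : m33 + |m31| + |m32| ≤ 4
  adm : Adm (Out e) m11 m12 m13 m21 m22 m23 m31 m32 m33

theorem Hyp.swap12 {e m11 m12 m13 m21 m22 m23 m31 m32 m33 : ℝ}
    (h : Hyp e m11 m12 m13 m21 m22 m23 m31 m32 m33) :
    Hyp e m22 m21 m23 m12 m11 m13 m32 m31 m33 := by
  exact ⟨h.d2, h.d1, h.d3, h.k2, h.k1, h.k3, (by have := h.r2; linarith), (by have := h.r1; linarith), (by have := h.r3; linarith),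
    ⟨(by convert h.adm.o010.swap12 using 1 <;> ring),
      (by convert h.adm.o100.swap12 using 1 <;> ring),
      (by convert h.adm.o001.swap12 using 1 <;> ring),
      (by convert h.adm.o110.swap12 using 1 <;> ring),
      (by convert h.adm.o1m0.neg.swap12 using 1 <;> ring),
      (by convert h.adm.o011.swap12 using 1 <;> ring),
      (by convert h.adm.o01m.swap12 using 1 <;> ring),
      (by convert h.adm.o101.swap12 using 1 <;> ring),
      (by convert h.adm.o10m.swap12 using 1 <;> ring),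
      (by convert h.adm.o111.swap12 using 1 <;> ring),
      (by convert h.adm.o11m.swap12 using 1 <;> ring),
      (by convert h.adm.o1mm.neg.swap12 using 1 <;> ring),
      (by convert h.adm.o1m1.neg.swap12 using 1 <;> ring)⟩⟩

theorem Hyp.swap23 {e m11 m12 m13 m21 m22 m23 m31 m32 m33 : ℝ}
    (h : Hyp e m11 m12 m13 m21 m22 m23 m31 m32 m33) :
    Hyp e m11 m13 m12 m31 m33 m32 m21 m23 m22 := by
  exact ⟨h.d1, h.d3, h.d2, h.k1, h.k3, h.k2, (by have := h.r1; linarith), (by have := h.r3; linarith), (by have := h.r2; linarith),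
    ⟨(by convert h.adm.o100.swap23 using 1 <;> ring),
      (by convert h.adm.o001.swap23 using 1 <;> ring),
      (by convert h.adm.o010.swap23 using 1 <;> ring),
      (by convert h.adm.o101.swap23 using 1 <;> ring),
      (by convert h.adm.o10m.swap23 using 1 <;> ring),
      (by convert h.adm.o110.swap23 using 1 <;> ring),
      (by convert h.adm.o1m0.swap23 using 1 <;> ring),
      (by convert h.adm.o011.swap23 using 1 <;> ring),
      (by convert h.adm.o01m.neg.swap23 using 1 <;> ring),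
      (by convert h.adm.o111.swap23 using 1 <;> ring),
      (by convert h.adm.o1m1.swap23 using 1 <;> ring),
      (by convert h.adm.o11m.swap23 using 1 <;> ring),
      (by convert h.adm.o1mm.swap23 using 1 <;> ring)⟩⟩

theorem Hyp.flip1 {e m11 m12 m13 m21 m22 m23 m31 m32 m33 : ℝ}
    (h : Hyp e m11 m12 m13 m21 m22 m23 m31 m32 m33) :
    Hyp e m11 (-m12) (-m13) (-m21) m22 m23 (-m31) m32 m33 := by
  exact ⟨h.d1, h.d2, h.d3, h.k1, h.k2, h.k3, (by have := h.r1; simpa only [abs_neg] using this), (by have := h.r2; simpa only [abs_neg] using this), (by have := h.r3; simpa only [abs_neg] using this),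
    ⟨(by convert h.adm.o100.neg.flip1 using 1 <;> ring),
      (by convert h.adm.o010.flip1 using 1 <;> ring),
      (by convert h.adm.o001.flip1 using 1 <;> ring),
      (by convert h.adm.o1m0.neg.flip1 using 1 <;> ring),
      (by convert h.adm.o110.neg.flip1 using 1 <;> ring),
      (by convert h.adm.o10m.neg.flip1 using 1 <;> ring),
      (by convert h.adm.o101.neg.flip1 using 1 <;> ring),
      (by convert h.adm.o011.flip1 using 1 <;> ring),
      (by convert h.adm.o01m.flip1 using 1 <;> ring),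
      (by convert h.adm.o1mm.neg.flip1 using 1 <;> ring),
      (by convert h.adm.o1m1.neg.flip1 using 1 <;> ring),
      (by convert h.adm.o11m.neg.flip1 using 1 <;> ring),
      (by convert h.adm.o111.neg.flip1 using 1 <;> ring)⟩⟩

theorem Hyp.flip2 {e m11 m12 m13 m21 m22 m23 m31 m32 m33 : ℝ}
    (h : Hyp e m11 m12 m13 m21 m22 m23 m31 m32 m33) :
    Hyp e m11 (-m12) m13 (-m21) m22 (-m23) m31 (-m32) m33 := by
  exact ⟨h.d1, h.d2, h.d3, h.k1, h.k2, h.k3, (by have := h.r1; simpa only [abs_neg] using this), (by have := h.r2; simpa only [abs_neg] using this), (by have := h.r3; simpa only [abs_neg] using this),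
    ⟨(by convert h.adm.o100.flip2 using 1 <;> ring),
      (by convert h.adm.o010.neg.flip2 using 1 <;> ring),
      (by convert h.adm.o001.flip2 using 1 <;> ring),
      (by convert h.adm.o1m0.flip2 using 1 <;> ring),
      (by convert h.adm.o110.flip2 using 1 <;> ring),
      (by convert h.adm.o101.flip2 using 1 <;> ring),
      (by convert h.adm.o10m.flip2 using 1 <;> ring),
      (by convert h.adm.o01m.neg.flip2 using 1 <;> ring),
      (by convert h.adm.o011.neg.flip2 using 1 <;> ring),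
      (by convert h.adm.o1m1.flip2 using 1 <;> ring),
      (by convert h.adm.o1mm.flip2 using 1 <;> ring),
      (by convert h.adm.o111.flip2 using 1 <;> ring),
      (by convert h.adm.o11m.flip2 using 1 <;> ring)⟩⟩

theorem Hyp.flip3 {e m11 m12 m13 m21 m22 m23 m31 m32 m33 : ℝ}
    (h : Hyp e m11 m12 m13 m21 m22 m23 m31 m32 m33) :
    Hyp e m11 m12 (-m13) m21 m22 (-m23) (-m31) (-m32) m33 := by
  exact ⟨h.d1, h.d2, h.d3, h.k1, h.k2, h.k3, (by have := h.r1; simpa only [abs_neg] using this), (by have := h.r2; simpa only [abs_neg] using this), (by have := h.r3; simpa only [abs_neg] using this),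
    ⟨(by convert h.adm.o100.flip3 using 1 <;> ring),
      (by convert h.adm.o010.flip3 using 1 <;> ring),
      (by convert h.adm.o001.neg.flip3 using 1 <;> ring),
      (by convert h.adm.o110.flip3 using 1 <;> ring),
      (by convert h.adm.o1m0.flip3 using 1 <;> ring),
      (by convert h.adm.o10m.flip3 using 1 <;> ring),
      (by convert h.adm.o101.flip3 using 1 <;> ring),
      (by convert h.adm.o01m.flip3 using 1 <;> ring),
      (by convert h.adm.o011.flip3 using 1 <;> ring),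
      (by convert h.adm.o11m.flip3 using 1 <;> ring),
      (by convert h.adm.o111.flip3 using 1 <;> ring),
      (by convert h.adm.o1mm.flip3 using 1 <;> ring),
      (by convert h.adm.o1m1.flip3 using 1 <;> ring)⟩⟩

private theorem h99_he {e : ℝ} (h : e ≤ 1 / 10 ^ 9) : e ≤ 1 / 1000000000 := by
  norm_num at h ⊢
  exact h

private theorem h99_sq_big (s : ℝ) (hs : ¬ (997 / 3000 ≤ s ∧ s ≤ 1003 / 3000)) :
    1 / 1000000 ≤ (s - 1 / 3) ^ 2 := by
  by_cases h1 : 997 / 3000 ≤ s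
  · have h2 : 1003 / 3000 < s := by
      by_contra h3
      exact hs ⟨h1, not_lt.mp h3⟩
    have h4 : 0 ≤ s - 1 / 3 - 1 / 1000 := by linarith only [h2]
    have h5 := mul_nonneg h4 h4
    linarith only [h5, h4]
  · have h2 : s < 997 / 3000 := not_le.mp h1
    have h4 : 0 ≤ 1 / 3 - 1 / 1000 - s := by linarith only [h2]
    have h5 := mul_nonneg h4 h4
    linarith only [h5, h4]

private theorem h99_glob {e a b c X x1 x2 x3 x4 x5 x6 V R : ℝ}
    (glob : 196 / 27 + 1 / 2 * (a + b + c) + 1 / 10 * V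
      + 1 / 20 * (x1 + x2 + x3 + x4 + x5 + x6) ≤ R)
    (ha : 0 ≤ a) (hb : 0 ≤ b) (hc : 0 ≤ c) (s1 : 0 ≤ x1) (s2 : 0 ≤ x2) (s3 : 0 ≤ x3)
    (s4 : 0 ≤ x4) (s5 : 0 ≤ x5) (s6 : 0 ≤ x6) (he : e ≤ 1 / 1000000000) (hX : X = V)
    (gv : 0 ≤ X)
    (h : 1 / 1000000 ≤ x1 ∨ 1 / 1000000 ≤ x2 ∨ 1 / 1000000 ≤ x3 ∨ 1 / 1000000 ≤ x4 ∨
      1 / 1000000 ≤ x5 ∨ 1 / 1000000 ≤ x6 ∨ 1 / 1000 < a ∨ 1 / 1000 < b ∨ 1 / 1000 < c) :
    196 / 27 + 97 / 5 * e ≤ R := by
  rw [hX] at gv
  rcases h with h | h | h | h | h | h | h | h | h <;> linarith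

theorem hypA {e a b c x u y v z w : ℝ} (he : 0 < e) (he' : e ≤ 1 / 10 ^ 9)
    (h : Hyp e (2 + a) (-x) (-z) (-u) (2 + b) (-y) (-w) (-v) (2 + c))
    (hx : 0 ≤ x) (hu : 0 ≤ u) (hy : 0 ≤ y) (hv : 0 ≤ v) (hz : 0 ≤ z) (hw : 0 ≤ w) :
    196 / 27 + 97 / 5 * e ≤ det3 (2 + a) (-x) (-z) (-u) (2 + b) (-y) (-w) (-v) (2 + c) := by
  obtain ⟨d1, d2, d3, k1, k2, k3, r1, r2, r3, adm⟩ := h
  simp only [abs_neg, abs_of_nonneg hx, abs_of_nonneg hu, abs_of_nonneg hy, abs_of_nonneg hv,
    abs_of_nonneg hz, abs_of_nonneg hw] at r1 r2 r3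
  have d1' : 0 ≤ a := by linarith only [d1]
  have d2' : 0 ≤ b := by linarith only [d2]
  have d3' : 0 ≤ c := by linarith only [d3]
  have r1' : 0 ≤ -a - x - z + 2 := by linarith only [r1]
  have r2' : 0 ≤ -b - u - y + 2 := by linarith only [r2]
  have r3' : 0 ≤ -c - v - w + 2 := by linarith only [r3]
  have he2 := h99_he he'
  have key := class_A a b c x u y v z w d1' d2' d3' hx hu hy hv hz hw
    r1' r2' r3' (by linarith only [k1]) (by linarith only [k2]) (by linarith only [k3])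
    (adm.imp (fun _ _ _ h => h.1))
  have hD : det3 (2 + a) (-x) (-z) (-u) (2 + b) (-y) (-w) (-v) (2 + c) =
      (2+a)*(2+b)*(2+c) - x*y*w - z*u*v - (2+a)*(y*v) - (2+b)*(z*w) - (2+c)*(x*u) := by
    unfold det3
    ring
  rw [hD]
  rcases key with key | ⟨g12, g13, g23, gv⟩
  · linarith only [key, he2]
  have glob := main_global a b c x u y v z w d1' d2' d3' hx hu hy hv
    hz hw r1' r2' r3' g12 g13 g23 gv
  have s1 := sq_nonneg (x - 1 / 3)
  have s2 := sq_nonneg (u - 1 / 3)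
  have s3 := sq_nonneg (y - 1 / 3)
  have s4 := sq_nonneg (v - 1 / 3)
  have s5 := sq_nonneg (z - 1 / 3)
  have s6 := sq_nonneg (w - 1 / 3)
  have glob2 := h99_glob glob d1' d2' d3' s1 s2 s3 s4 s5 s6 he2 (X := a + b + c - x - u - y - v - z - w + 2) (by ring)
  by_cases hxl : 997 / 3000 ≤ x ∧ x ≤ 1003 / 3000
  swap
  · exact glob2 gv (Or.inl (h99_sq_big x hxl))
  by_cases hul : 997 / 3000 ≤ u ∧ u ≤ 1003 / 3000
  swap
  · exact glob2 gv (Or.inr (Or.inl (h99_sq_big u hul)))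
  by_cases hyl : 997 / 3000 ≤ y ∧ y ≤ 1003 / 3000
  swap
  · exact glob2 gv (Or.inr (Or.inr (Or.inl (h99_sq_big y hyl))))
  by_cases hvl : 997 / 3000 ≤ v ∧ v ≤ 1003 / 3000
  swap
  · exact glob2 gv (Or.inr (Or.inr (Or.inr (Or.inl (h99_sq_big v hvl)))))
  by_cases hzl : 997 / 3000 ≤ z ∧ z ≤ 1003 / 3000
  swap
  · exact glob2 gv (Or.inr (Or.inr (Or.inr (Or.inr (Or.inl (h99_sq_big z hzl))))))
  by_cases hwl : 997 / 3000 ≤ w ∧ w ≤ 1003 / 3000
  swap
  · exact glob2 gv (Or.inr (Or.inr (Or.inr (Or.inr (Or.inr (Or.inl (h99_sq_big w hwl)))))))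
  by_cases hal : a ≤ 1 / 1000
  swap
  · exact glob2 gv (Or.inr (Or.inr (Or.inr (Or.inr (Or.inr (Or.inr (Or.inl (not_le.mp hal))))))))
  by_cases hbl : b ≤ 1 / 1000
  swap
  · exact glob2 gv
      (Or.inr (Or.inr (Or.inr (Or.inr (Or.inr (Or.inr (Or.inr (Or.inl (not_le.mp hbl)))))))))
  by_cases hcl : c ≤ 1 / 1000
  swap
  · exact glob2 gv
      (Or.inr (Or.inr (Or.inr (Or.inr (Or.inr (Or.inr (Or.inr (Or.inr (not_le.mp hcl)))))))))
  have loc := main_local a b c x u y v z w d1' d2' d3' g12 g13 g23 gv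
    (by linarith only [hxl.1]) (by linarith only [hxl.2]) (by linarith only [hul.1])
    (by linarith only [hul.2]) (by linarith only [hyl.1]) (by linarith only [hyl.2])
    (by linarith only [hvl.1]) (by linarith only [hvl.2]) (by linarith only [hzl.1])
    (by linarith only [hzl.2]) (by linarith only [hwl.1]) (by linarith only [hwl.2])
    (by linarith only [hal]) (by linarith only [hbl]) (by linarith only [hcl])
  have ha2 : 2 * e ≤ a := by
    by_contra hh
    apply adm.o100.2.1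
    refine ⟨?_, ?_, ?_⟩
    · rw [abs_of_nonneg (by linarith only [d1])]; linarith only [hh]
    · rw [abs_le]; constructor <;> linarith only [hxl.1, hxl.2, hzl.1, hzl.2]
    · rw [abs_le]; constructor <;> linarith only [hxl.1, hxl.2, hzl.1, hzl.2]
  have hb2 : 2 * e ≤ b := by
    by_contra hh
    apply adm.o010.2.2.1
    refine ⟨?_, ?_, ?_⟩
    · rw [abs_of_nonneg (by linarith only [d2])]; linarith only [hh]
    · rw [abs_le]; constructor <;> linarith only [hul.1, hul.2, hyl.1, hyl.2]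
    · rw [abs_le]; constructor <;> linarith only [hul.1, hul.2, hyl.1, hyl.2]
  have hc2 : 2 * e ≤ c := by
    by_contra hh
    apply adm.o001.2.2.2.1
    refine ⟨?_, ?_, ?_⟩
    · rw [abs_of_nonneg (by linarith only [d3])]; linarith only [hh]
    · rw [abs_le]; constructor <;> linarith only [hvl.1, hvl.2, hwl.1, hwl.2]
    · rw [abs_le]; constructor <;> linarith only [hvl.1, hvl.2, hwl.1, hwl.2]
  have hv2 : e ≤ 2 + a + b + c - x - u - y - v - z - w := by
    by_contra hh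
    apply adm.o111.2.2.2.2
    have e1 : |2 + a + -u + -w| = 2 + a - u - w := by
      rw [abs_of_nonneg (by linarith only [d1, hul.2, hwl.2])]; ring
    have e2 : |-x + (2 + b) + -v| = 2 + b - x - v := by
      rw [abs_of_nonneg (by linarith only [d2, hxl.2, hvl.2])]; ring
    have e3 : |-z + -y + (2 + c)| = 2 + c - z - y := by
      rw [abs_of_nonneg (by linarith only [d3, hzl.2, hyl.2])]; ring
    rw [e1, e2, e3]
    refine ⟨?_, ?_, ?_, ?_⟩
    · linarith only [d1, hul.2, hwl.2]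
    · linarith only [d2, hxl.2, hvl.2]
    · linarith only [d3, hzl.2, hyl.2]
    · linarith only [hh]
  linarith only [loc, ha2, hb2, hc2, hv2, he]

theorem conclA {e m11 m12 m13 m21 m22 m23 m31 m32 m33 : ℝ} (he : 0 < e) (he' : e ≤ 1 / 10 ^ 9)
    (h : Hyp e m11 m12 m13 m21 m22 m23 m31 m32 m33) (s12 : m12 ≤ 0) (s13 : m13 ≤ 0) (s21 : m21 ≤ 0) (s23 : m23 ≤ 0) (s31 : m31 ≤ 0) (s32 : m32 ≤ 0) :
    196 / 27 + 97 / 5 * e ≤ det3 m11 m12 m13 m21 m22 m23 m31 m32 m33 := by
  have h2 : Hyp e (2 + (m11 - 2)) (-(-m12)) (-(-m13)) (-(-m21)) (2 + (m22 - 2)) (-(-m23))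
      (-(-m31)) (-(-m32)) (2 + (m33 - 2)) := by
    convert h using 1 <;> ring
  have h3 := hypA he he' h2 (neg_nonneg.mpr s12) (neg_nonneg.mpr s21) (neg_nonneg.mpr s23)
    (neg_nonneg.mpr s32) (neg_nonneg.mpr s13) (neg_nonneg.mpr s31)
  unfold det3 at h3 ⊢
  linarith only [h3]

theorem conclB {e m11 m12 m13 m21 m22 m23 m31 m32 m33 : ℝ} (he : 0 < e) (he' : e ≤ 1 / 10 ^ 9)
    (h : Hyp e m11 m12 m13 m21 m22 m23 m31 m32 m33) (s12 : 0 ≤ m12) (s13 : 0 ≤ m13) (s21 : 0 ≤ m21) (s23 : 0 ≤ m23) (s31 : 0 ≤ m31) (s32 : 0 ≤ m32) :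
    196 / 27 + 97 / 5 * e ≤ det3 m11 m12 m13 m21 m22 m23 m31 m32 m33 := by
  obtain ⟨d1, d2, d3, k1, k2, k3, r1, r2, r3, adm⟩ := h
  rw [abs_of_nonneg s12, abs_of_nonneg s13] at r1
  rw [abs_of_nonneg s21, abs_of_nonneg s23] at r2
  rw [abs_of_nonneg s31, abs_of_nonneg s32] at r3
  have adm2 : Adm OutD (2 + (m11 - 2)) m12 m13 m21 (2 + (m22 - 2)) m23 m31 m32 (2 + (m33 - 2)) := by
    convert adm.imp (fun _ _ _ h => h.1) using 1 <;> ring
  have key := class_B (m11 - 2) (m22 - 2) (m33 - 2) m12 m21 m23 m32 m13 m31 (by linarith only [d1])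
    (by linarith only [d2]) (by linarith only [d3]) (by linarith only [s12]) (by linarith only [s21]) (by linarith only [s23]) (by linarith only [s32])
    (by linarith only [s13]) (by linarith only [s31]) (by linarith only [r1]) (by linarith only [r2]) (by linarith only [r3]) (by linarith only [k1])
    (by linarith only [k2]) (by linarith only [k3]) adm2
  unfold det3
  linarith only [key, h99_he he']

theorem conclC {e m11 m12 m13 m21 m22 m23 m31 m32 m33 : ℝ} (he : 0 < e) (he' : e ≤ 1 / 10 ^ 9)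
    (h : Hyp e m11 m12 m13 m21 m22 m23 m31 m32 m33) (s12 : m12 ≤ 0) (s13 : m13 ≤ 0) (s21 : m21 ≤ 0) (s23 : 0 ≤ m23) (s31 : m31 ≤ 0) (s32 : m32 ≤ 0) :
    196 / 27 + 97 / 5 * e ≤ det3 m11 m12 m13 m21 m22 m23 m31 m32 m33 := by
  obtain ⟨d1, d2, d3, k1, k2, k3, r1, r2, r3, adm⟩ := h
  rw [abs_of_nonpos s12, abs_of_nonpos s13] at r1
  rw [abs_of_nonpos s21, abs_of_nonneg s23] at r2
  rw [abs_of_nonpos s31, abs_of_nonpos s32] at r3
  have adm2 : Adm OutD (2 + (m11 - 2)) (-(-m12)) (-(-m13)) (-(-m21)) (2 + (m22 - 2)) m23 (-(-m31)) (-(-m32)) (2 + (m33 - 2)) := by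
    convert adm.imp (fun _ _ _ h => h.1) using 1 <;> ring
  have key := class_C (m11 - 2) (m22 - 2) (m33 - 2) (-m12) (-m21) m23 (-m32) (-m13) (-m31) (by linarith only [d1])
    (by linarith only [d2]) (by linarith only [d3]) (by linarith only [s12]) (by linarith only [s21]) (by linarith only [s23]) (by linarith only [s32])
    (by linarith only [s13]) (by linarith only [s31]) (by linarith only [r1]) (by linarith only [r2]) (by linarith only [r3]) (by linarith only [k1])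
    (by linarith only [k2]) (by linarith only [k3]) adm2
  unfold det3
  linarith only [key, h99_he he']

theorem conclD1 {e m11 m12 m13 m21 m22 m23 m31 m32 m33 : ℝ} (he : 0 < e) (he' : e ≤ 1 / 10 ^ 9)
    (h : Hyp e m11 m12 m13 m21 m22 m23 m31 m32 m33) (s12 : m12 ≤ 0) (s13 : m13 ≤ 0) (s21 : m21 ≤ 0) (s23 : m23 ≤ 0) (s31 : 0 ≤ m31) (s32 : 0 ≤ m32) :
    196 / 27 + 97 / 5 * e ≤ det3 m11 m12 m13 m21 m22 m23 m31 m32 m33 := by
  obtain ⟨d1, d2, d3, k1, k2, k3, r1, r2, r3, adm⟩ := h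
  rw [abs_of_nonpos s12, abs_of_nonpos s13] at r1
  rw [abs_of_nonpos s21, abs_of_nonpos s23] at r2
  rw [abs_of_nonneg s31, abs_of_nonneg s32] at r3
  have adm2 : Adm OutD (2 + (m11 - 2)) (-(-m12)) (-(-m13)) (-(-m21)) (2 + (m22 - 2)) (-(-m23)) m31 m32 (2 + (m33 - 2)) := by
    convert adm.imp (fun _ _ _ h => h.1) using 1 <;> ring
  have key := class_D1 (m11 - 2) (m22 - 2) (m33 - 2) (-m12) (-m21) (-m23) m32 (-m13) m31 (by linarith only [d1])
    (by linarith only [d2]) (by linarith only [d3]) (by linarith only [s12]) (by linarith only [s21]) (by linarith only [s23]) (by linarith only [s32])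
    (by linarith only [s13]) (by linarith only [s31]) (by linarith only [r1]) (by linarith only [r2]) (by linarith only [r3]) (by linarith only [k1])
    (by linarith only [k2]) (by linarith only [k3]) adm2
  unfold det3
  linarith only [key, h99_he he']

theorem conclD2 {e m11 m12 m13 m21 m22 m23 m31 m32 m33 : ℝ} (he : 0 < e) (he' : e ≤ 1 / 10 ^ 9)
    (h : Hyp e m11 m12 m13 m21 m22 m23 m31 m32 m33) (s12 : m12 ≤ 0) (s13 : m13 ≤ 0) (s21 : m21 ≤ 0) (s23 : 0 ≤ m23) (s31 : 0 ≤ m31) (s32 : m32 ≤ 0) :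
    196 / 27 + 97 / 5 * e ≤ det3 m11 m12 m13 m21 m22 m23 m31 m32 m33 := by
  obtain ⟨d1, d2, d3, k1, k2, k3, r1, r2, r3, adm⟩ := h
  rw [abs_of_nonpos s12, abs_of_nonpos s13] at r1
  rw [abs_of_nonpos s21, abs_of_nonneg s23] at r2
  rw [abs_of_nonneg s31, abs_of_nonpos s32] at r3
  have adm2 : Adm OutD (2 + (m11 - 2)) (-(-m12)) (-(-m13)) (-(-m21)) (2 + (m22 - 2)) m23 m31 (-(-m32)) (2 + (m33 - 2)) := by
    convert adm.imp (fun _ _ _ h => h.1) using 1 <;> ring
  have key := class_D2 (m11 - 2) (m22 - 2) (m33 - 2) (-m12) (-m21) m23 (-m32) (-m13) m31 (by linarith only [d1])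
    (by linarith only [d2]) (by linarith only [d3]) (by linarith only [s12]) (by linarith only [s21]) (by linarith only [s23]) (by linarith only [s32])
    (by linarith only [s13]) (by linarith only [s31]) (by linarith only [r1]) (by linarith only [r2]) (by linarith only [r3]) (by linarith only [k1])
    (by linarith only [k2]) (by linarith only [k3]) adm2
  unfold det3
  linarith only [key, h99_he he']

theorem conclE {e m11 m12 m13 m21 m22 m23 m31 m32 m33 : ℝ} (he : 0 < e) (he' : e ≤ 1 / 10 ^ 9)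
    (h : Hyp e m11 m12 m13 m21 m22 m23 m31 m32 m33) (s12 : m12 ≤ 0) (s13 : 0 ≤ m13) (s21 : 0 ≤ m21) (s23 : m23 ≤ 0) (s31 : m31 ≤ 0) (s32 : 0 ≤ m32) :
    196 / 27 + 97 / 5 * e ≤ det3 m11 m12 m13 m21 m22 m23 m31 m32 m33 := by
  obtain ⟨d1, d2, d3, k1, k2, k3, r1, r2, r3, adm⟩ := h
  rw [abs_of_nonpos s12, abs_of_nonneg s13] at r1
  rw [abs_of_nonneg s21, abs_of_nonpos s23] at r2
  rw [abs_of_nonpos s31, abs_of_nonneg s32] at r3
  have adm2 : Adm OutD (2 + (m11 - 2)) (-(-m12)) m13 m21 (2 + (m22 - 2)) (-(-m23)) (-(-m31)) m32 (2 + (m33 - 2)) := by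
    convert adm.imp (fun _ _ _ h => h.1) using 1 <;> ring
  have key := class_E (m11 - 2) (m22 - 2) (m33 - 2) (-m12) m21 (-m23) m32 m13 (-m31) (by linarith only [d1])
    (by linarith only [d2]) (by linarith only [d3]) (by linarith only [s12]) (by linarith only [s21]) (by linarith only [s23]) (by linarith only [s32])
    (by linarith only [s13]) (by linarith only [s31]) (by linarith only [r1]) (by linarith only [r2]) (by linarith only [r3]) (by linarith only [k1])
    (by linarith only [k2]) (by linarith only [k3]) adm2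
  unfold det3
  linarith only [key, h99_he he']

private theorem h99_det_swap12 (m11 m12 m13 m21 m22 m23 m31 m32 m33 : ℝ) :
    det3 m22 m21 m23 m12 m11 m13 m32 m31 m33 = det3 m11 m12 m13 m21 m22 m23 m31 m32 m33 := by
  unfold det3
  ring

private theorem h99_det_swap23 (m11 m12 m13 m21 m22 m23 m31 m32 m33 : ℝ) :
    det3 m11 m13 m12 m31 m33 m32 m21 m23 m22 = det3 m11 m12 m13 m21 m22 m23 m31 m32 m33 := by
  unfold det3
  ring

private theorem h99_det_flip1 (m11 m12 m13 m21 m22 m23 m31 m32 m33 : ℝ) :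
    det3 m11 (-m12) (-m13) (-m21) m22 m23 (-m31) m32 m33 =
      det3 m11 m12 m13 m21 m22 m23 m31 m32 m33 := by
  unfold det3
  ring

private theorem h99_det_flip2 (m11 m12 m13 m21 m22 m23 m31 m32 m33 : ℝ) :
    det3 m11 (-m12) m13 (-m21) m22 (-m23) m31 (-m32) m33 =
      det3 m11 m12 m13 m21 m22 m23 m31 m32 m33 := by
  unfold det3
  ring

private theorem h99_det_flip3 (m11 m12 m13 m21 m22 m23 m31 m32 m33 : ℝ) :
    det3 m11 m12 (-m13) m21 m22 (-m23) (-m31) (-m32) m33 =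
      det3 m11 m12 m13 m21 m22 m23 m31 m32 m33 := by
  unfold det3
  ring

theorem core {e m11 m12 m13 m21 m22 m23 m31 m32 m33 : ℝ} (he : 0 < e) (he' : e ≤ 1 / 10 ^ 9)
    (h : Hyp e m11 m12 m13 m21 m22 m23 m31 m32 m33) :
    196 / 27 + 97 / 5 * e ≤ det3 m11 m12 m13 m21 m22 m23 m31 m32 m33 := by
  rcases le_total 0 m12 with s12 | s12 <;> rcases le_total 0 m13 with s13 | s13 <;>
  rcases le_total 0 m21 with s21 | s21 <;> rcases le_total 0 m23 with s23 | s23 <;>
  rcases le_total 0 m31 with s31 | s31 <;> rcases le_total 0 m32 with s32 | s32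
  · exact conclB he he' h s12 s13 s21 s23 s31 s32
  · have h3 := conclC he he' h.flip1 (neg_nonpos.mpr s12) (neg_nonpos.mpr s13) (neg_nonpos.mpr s21) s23 (neg_nonpos.mpr s31) s32
    rw [h99_det_flip1] at h3
    exact h3
  · have h3 := conclC he he' h.swap12.flip1 (neg_nonpos.mpr s21) (neg_nonpos.mpr s23) (neg_nonpos.mpr s12) s13 (neg_nonpos.mpr s32) s31
    rw [h99_det_flip1, h99_det_swap12] at h3
    exact h3
  · have h3 := conclD2 he he' h.flip1 (neg_nonpos.mpr s12) (neg_nonpos.mpr s13) (neg_nonpos.mpr s21) s23 (neg_nonneg.mpr s31) s32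
    rw [h99_det_flip1] at h3
    exact h3
  · have h3 := conclC he he' h.swap23.flip1 (neg_nonpos.mpr s13) (neg_nonpos.mpr s12) (neg_nonpos.mpr s31) s32 (neg_nonpos.mpr s21) s23
    rw [h99_det_flip1, h99_det_swap23] at h3
    exact h3
  · have h3 := conclA he he' h.flip1 (neg_nonpos.mpr s12) (neg_nonpos.mpr s13) (neg_nonpos.mpr s21) s23 (neg_nonpos.mpr s31) s32
    rw [h99_det_flip1] at h3
    exact h3
  · have h3 := conclD1 he he' h.flip1 (neg_nonpos.mpr s12) (neg_nonpos.mpr s13) (neg_nonpos.mpr s21) s23 (neg_nonneg.mpr s31) s32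
    rw [h99_det_flip1] at h3
    exact h3
  · have h3 := conclC he he' h.swap12.swap23.flip3 s23 (neg_nonpos.mpr s21) s32 (neg_nonneg.mpr s31) (neg_nonpos.mpr s12) (neg_nonpos.mpr s13)
    rw [h99_det_flip3, h99_det_swap23, h99_det_swap12] at h3
    exact h3
  · have h3 := conclC he he' h.swap23.swap12.flip1 (neg_nonpos.mpr s31) (neg_nonpos.mpr s32) (neg_nonpos.mpr s13) s12 (neg_nonpos.mpr s23) s21
    rw [h99_det_flip1, h99_det_swap12, h99_det_swap23] at h3
    exact h3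
  · have h3 := conclD1 he he' h.swap23.flip1 (neg_nonpos.mpr s13) (neg_nonpos.mpr s12) (neg_nonpos.mpr s31) s32 (neg_nonneg.mpr s21) s23
    rw [h99_det_flip1, h99_det_swap23] at h3
    exact h3
  · have h3 := conclD2 he he' h.swap12.swap23.flip2 (neg_nonpos.mpr s23) s21 (neg_nonpos.mpr s32) (neg_nonneg.mpr s31) s12 (neg_nonpos.mpr s13)
    rw [h99_det_flip2, h99_det_swap23, h99_det_swap12] at h3
    exact h3
  · have h3 := conclE he he' h.flip2 (neg_nonpos.mpr s12) s13 (neg_nonneg.mpr s21) (neg_nonpos.mpr s23) s31 (neg_nonneg.mpr s32)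
    rw [h99_det_flip2] at h3
    exact h3
  · have h3 := conclD2 he he' h.swap23.flip1 (neg_nonpos.mpr s13) (neg_nonpos.mpr s12) (neg_nonpos.mpr s31) s32 (neg_nonneg.mpr s21) s23
    rw [h99_det_flip1, h99_det_swap23] at h3
    exact h3
  · have h3 := conclC he he' h.swap12.swap23.swap12.flip3 s32 (neg_nonpos.mpr s31) s23 (neg_nonneg.mpr s21) (neg_nonpos.mpr s13) (neg_nonpos.mpr s12)
    rw [h99_det_flip3, h99_det_swap12, h99_det_swap23, h99_det_swap12] at h3
    exact h3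
  · have h3 := conclE he he' h.swap12.flip3 s21 (neg_nonneg.mpr s23) s12 (neg_nonpos.mpr s13) (neg_nonpos.mpr s32) (neg_nonneg.mpr s31)
    rw [h99_det_flip3, h99_det_swap12] at h3
    exact h3
  · have h3 := conclD1 he he' h.swap12.swap23 s23 s21 s32 s31 s12 s13
    rw [h99_det_swap23, h99_det_swap12] at h3
    exact h3
  · have h3 := conclC he he' h.swap12.swap23.flip1 (neg_nonpos.mpr s23) (neg_nonpos.mpr s21) (neg_nonpos.mpr s32) s31 (neg_nonpos.mpr s12) s13
    rw [h99_det_flip1, h99_det_swap23, h99_det_swap12] at h3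
    exact h3
  · have h3 := conclD1 he he' h.flip2 (neg_nonpos.mpr s12) s13 (neg_nonpos.mpr s21) (neg_nonpos.mpr s23) s31 (neg_nonneg.mpr s32)
    rw [h99_det_flip2] at h3
    exact h3
  · have h3 := conclA he he' h.flip2 (neg_nonpos.mpr s12) s13 (neg_nonpos.mpr s21) (neg_nonpos.mpr s23) s31 (neg_nonpos.mpr s32)
    rw [h99_det_flip2] at h3
    exact h3
  · have h3 := conclC he he' h.swap23.flip3 s13 (neg_nonpos.mpr s12) s31 (neg_nonneg.mpr s32) (neg_nonpos.mpr s21) (neg_nonpos.mpr s23)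
    rw [h99_det_flip3, h99_det_swap23] at h3
    exact h3
  · have h3 := conclD2 he he' h.flip2 (neg_nonpos.mpr s12) s13 (neg_nonpos.mpr s21) (neg_nonneg.mpr s23) s31 (neg_nonpos.mpr s32)
    rw [h99_det_flip2] at h3
    exact h3
  · have h3 := conclC he he' h.swap12.flip2 (neg_nonpos.mpr s21) s23 (neg_nonpos.mpr s12) (neg_nonneg.mpr s13) s32 (neg_nonpos.mpr s31)
    rw [h99_det_flip2, h99_det_swap12] at h3
    exact h3
  · have h3 := conclC he he' h.flip2 (neg_nonpos.mpr s12) s13 (neg_nonpos.mpr s21) (neg_nonneg.mpr s23) s31 (neg_nonpos.mpr s32)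
    rw [h99_det_flip2] at h3
    exact h3
  · have h3 := conclB he he' h.flip3 s12 (neg_nonneg.mpr s13) s21 (neg_nonneg.mpr s23) (neg_nonneg.mpr s31) (neg_nonneg.mpr s32)
    rw [h99_det_flip3] at h3
    exact h3
  · have h3 := conclD1 he he' h.swap12.swap23.flip2 (neg_nonpos.mpr s23) s21 (neg_nonpos.mpr s32) (neg_nonpos.mpr s31) s12 (neg_nonneg.mpr s13)
    rw [h99_det_flip2, h99_det_swap23, h99_det_swap12] at h3
    exact h3
  · have h3 := conclE he he' h.swap12 s21 s23 s12 s13 s32 s31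
    rw [h99_det_swap12] at h3
    exact h3
  · have h3 := conclC he he' h.swap12.swap23.swap12.flip2 (neg_nonpos.mpr s32) s31 (neg_nonpos.mpr s23) (neg_nonneg.mpr s21) s13 (neg_nonpos.mpr s12)
    rw [h99_det_flip2, h99_det_swap12, h99_det_swap23, h99_det_swap12] at h3
    exact h3
  · have h3 := conclD2 he he' h.swap23.swap12 s31 s32 s13 s12 s23 s21
    rw [h99_det_swap12, h99_det_swap23] at h3
    exact h3
  · have h3 := conclE he he' h.flip1 (neg_nonpos.mpr s12) (neg_nonneg.mpr s13) (neg_nonneg.mpr s21) s23 (neg_nonpos.mpr s31) s32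
    rw [h99_det_flip1] at h3
    exact h3
  · have h3 := conclD2 he he' h.swap12.swap23 s23 s21 s32 s31 s12 s13
    rw [h99_det_swap23, h99_det_swap12] at h3
    exact h3
  · have h3 := conclD1 he he' h.swap23.flip3 s13 (neg_nonpos.mpr s12) s31 (neg_nonpos.mpr s32) (neg_nonneg.mpr s21) (neg_nonneg.mpr s23)
    rw [h99_det_flip3, h99_det_swap23] at h3
    exact h3
  · have h3 := conclC he he' h.swap23.swap12 s31 s32 s13 s12 s23 s21
    rw [h99_det_swap12, h99_det_swap23] at h3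
    exact h3
  · have h3 := conclC he he' h.swap12.swap23.swap12.flip1 (neg_nonpos.mpr s32) (neg_nonpos.mpr s31) (neg_nonpos.mpr s23) s21 (neg_nonpos.mpr s13) s12
    rw [h99_det_flip1, h99_det_swap12, h99_det_swap23, h99_det_swap12] at h3
    exact h3
  · have h3 := conclD2 he he' h.swap23.flip2 (neg_nonpos.mpr s13) s12 (neg_nonpos.mpr s31) (neg_nonneg.mpr s32) s21 (neg_nonpos.mpr s23)
    rw [h99_det_flip2, h99_det_swap23] at h3
    exact h3
  · have h3 := conclD1 he he' h.swap12.swap23.flip1 (neg_nonpos.mpr s23) (neg_nonpos.mpr s21) (neg_nonpos.mpr s32) s31 (neg_nonneg.mpr s12) s13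
    rw [h99_det_flip1, h99_det_swap23, h99_det_swap12] at h3
    exact h3
  · have h3 := conclE he he' h.swap12.flip2 (neg_nonpos.mpr s21) s23 (neg_nonneg.mpr s12) (neg_nonpos.mpr s13) s32 (neg_nonneg.mpr s31)
    rw [h99_det_flip2, h99_det_swap12] at h3
    exact h3
  · have h3 := conclD1 he he' h.swap23.flip2 (neg_nonpos.mpr s13) s12 (neg_nonpos.mpr s31) (neg_nonpos.mpr s32) s21 (neg_nonneg.mpr s23)
    rw [h99_det_flip2, h99_det_swap23] at h3
    exact h3
  · have h3 := conclC he he' h.swap23.swap12.flip2 (neg_nonpos.mpr s31) s32 (neg_nonpos.mpr s13) (neg_nonneg.mpr s12) s23 (neg_nonpos.mpr s21)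
    rw [h99_det_flip2, h99_det_swap12, h99_det_swap23] at h3
    exact h3
  · exact conclE he he' h s12 s13 s21 s23 s31 s32
  · have h3 := conclD2 he he' h.swap12.swap23.swap12 s32 s31 s23 s21 s13 s12
    rw [h99_det_swap12, h99_det_swap23, h99_det_swap12] at h3
    exact h3
  · have h3 := conclA he he' h.flip3 s12 (neg_nonpos.mpr s13) s21 (neg_nonpos.mpr s23) (neg_nonpos.mpr s31) (neg_nonpos.mpr s32)
    rw [h99_det_flip3] at h3
    exact h3
  · have h3 := conclC he he' h.swap23.flip2 (neg_nonpos.mpr s13) s12 (neg_nonpos.mpr s31) (neg_nonneg.mpr s32) s21 (neg_nonpos.mpr s23)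
    rw [h99_det_flip2, h99_det_swap23] at h3
    exact h3
  · have h3 := conclC he he' h.swap12.swap23.flip2 (neg_nonpos.mpr s23) s21 (neg_nonpos.mpr s32) (neg_nonneg.mpr s31) s12 (neg_nonpos.mpr s13)
    rw [h99_det_flip2, h99_det_swap23, h99_det_swap12] at h3
    exact h3
  · have h3 := conclD1 he he' h.flip3 s12 (neg_nonpos.mpr s13) s21 (neg_nonpos.mpr s23) (neg_nonneg.mpr s31) (neg_nonneg.mpr s32)
    rw [h99_det_flip3] at h3
    exact h3
  · have h3 := conclC he he' h.flip3 s12 (neg_nonpos.mpr s13) s21 (neg_nonneg.mpr s23) (neg_nonpos.mpr s31) (neg_nonpos.mpr s32)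
    rw [h99_det_flip3] at h3
    exact h3
  · have h3 := conclB he he' h.flip2 (neg_nonneg.mpr s12) s13 (neg_nonneg.mpr s21) (neg_nonneg.mpr s23) s31 (neg_nonneg.mpr s32)
    rw [h99_det_flip2] at h3
    exact h3
  · have h3 := conclD2 he he' h.swap12 s21 s23 s12 s13 s32 s31
    rw [h99_det_swap12] at h3
    exact h3
  · have h3 := conclC he he' h.swap12 s21 s23 s12 s13 s32 s31
    rw [h99_det_swap12] at h3
    exact h3
  · have h3 := conclD2 he he' h.swap12.swap23.flip1 (neg_nonpos.mpr s23) (neg_nonpos.mpr s21) (neg_nonpos.mpr s32) s31 (neg_nonneg.mpr s12) s13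
    rw [h99_det_flip1, h99_det_swap23, h99_det_swap12] at h3
    exact h3
  · have h3 := conclE he he' h.flip3 s12 (neg_nonneg.mpr s13) s21 (neg_nonpos.mpr s23) (neg_nonpos.mpr s31) (neg_nonneg.mpr s32)
    rw [h99_det_flip3] at h3
    exact h3
  · have h3 := conclC he he' h.swap23.swap12.flip3 s31 (neg_nonpos.mpr s32) s13 (neg_nonneg.mpr s12) (neg_nonpos.mpr s23) (neg_nonpos.mpr s21)
    rw [h99_det_flip3, h99_det_swap12, h99_det_swap23] at h3
    exact h3
  · have h3 := conclD1 he he' h.swap23 s13 s12 s31 s32 s21 s23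
    rw [h99_det_swap23] at h3
    exact h3
  · have h3 := conclE he he' h.swap12.flip1 (neg_nonpos.mpr s21) (neg_nonneg.mpr s23) (neg_nonneg.mpr s12) s13 (neg_nonpos.mpr s32) s31
    rw [h99_det_flip1, h99_det_swap12] at h3
    exact h3
  · have h3 := conclD1 he he' h.swap12.swap23.flip3 s23 (neg_nonpos.mpr s21) s32 (neg_nonpos.mpr s31) (neg_nonneg.mpr s12) (neg_nonneg.mpr s13)
    rw [h99_det_flip3, h99_det_swap23, h99_det_swap12] at h3
    exact h3
  · have h3 := conclD2 he he' h.swap23 s13 s12 s31 s32 s21 s23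
    rw [h99_det_swap23] at h3
    exact h3
  · have h3 := conclC he he' h.swap12.swap23.swap12 s32 s31 s23 s21 s13 s12
    rw [h99_det_swap12, h99_det_swap23, h99_det_swap12] at h3
    exact h3
  · have h3 := conclC he he' h.swap12.flip3 s21 (neg_nonpos.mpr s23) s12 (neg_nonneg.mpr s13) (neg_nonpos.mpr s32) (neg_nonpos.mpr s31)
    rw [h99_det_flip3, h99_det_swap12] at h3
    exact h3
  · exact conclD2 he he' h s12 s13 s21 s23 s31 s32
  · have h3 := conclB he he' h.flip1 (neg_nonneg.mpr s12) (neg_nonneg.mpr s13) (neg_nonneg.mpr s21) s23 (neg_nonneg.mpr s31) s32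
    rw [h99_det_flip1] at h3
    exact h3
  · exact conclC he he' h s12 s13 s21 s23 s31 s32
  · exact conclD1 he he' h s12 s13 s21 s23 s31 s32
  · have h3 := conclC he he' h.swap12.swap23 s23 s21 s32 s31 s12 s13
    rw [h99_det_swap23, h99_det_swap12] at h3
    exact h3
  · have h3 := conclC he he' h.swap23 s13 s12 s31 s32 s21 s23
    rw [h99_det_swap23] at h3
    exact h3
  · exact conclA he he' h s12 s13 s21 s23 s31 s32

end Pool.Agent.Helper84.Tet
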