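import Mathlib
set_option autoImplicit false
namespace Pool.Agent.Helper84.Tet
open MeasureTheory Filter
open scoped Pointwise ENNReal

/-- Euclidean three-space. -/
abbrev E3 : Type := EuclideanSpace ℝ (Fin 3)

/-- A convex body: a compact convex set with nonempty interior. -/
structure IsConvexBody (K : Set E3) : Prop where
  convex : Convex ℝ K
  isCompact : IsCompact K
  interior_nonempty : (interior K).Nonempty

/-- The translates `u + K`, `u ∈ S`, form a packing: their interiors are pairwise disjoint. -/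
def IsPacking (K S : Set E3) : Prop :=
  ∀ u ∈ S, ∀ v ∈ S, u ≠ v → Disjoint (interior (u +ᵥ K)) (interior (v +ᵥ K))

/-- The (upper) density of the family `u + K`, `u ∈ S`: the limsup, as `r → ∞`, of
`(∑ Vol((u + K) ∩ B(r))) / Vol(B(r))`. -/
noncomputable def density (K S : Set E3) : ℝ≥0∞ :=
  limsup (fun r : ℝ => (∑' u : S, volume (((u : E3) +ᵥ K) ∩ Metric.closedBall (0 : E3) r)) /
    volume (Metric.closedBall (0 : E3) r)) atTop

/-- The lattice packing density `δ_L(K)`: the supremum of the densities of all packings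
`{u + K : u ∈ Λ}`, `Λ` a lattice. -/
noncomputable def deltaL (K : Set E3) : ℝ≥0∞ :=
  ⨆ (Λ : Submodule ℤ E3) (_ : DiscreteTopology Λ) (_ : IsZLattice ℝ Λ)
    (_ : IsPacking K (Λ : Set E3)), density K (Λ : Set E3)

/-- The minimum (infimum) `m_L` of `δ_L(K)` over all convex bodies `K`. -/
noncomputable def mL : ℝ≥0∞ := ⨅ (K : Set E3) (_ : IsConvexBody K), deltaL K

/-- The regular tetrahedron with vertices `(1,1,1), (1,-1,-1), (-1,1,-1), (-1,-1,1)`. -/
def tetrahedron : Set E3 :=
  convexHull ℝ {!₂[1, 1, 1], !₂[1, -1, -1], !₂[-1, 1, -1], !₂[-1, -1, 1]}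

end Pool.Agent.Helper84.Tet
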