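import Pool.Agent.Helper84.Tet.PackDefs
import Pool.Agent.Helper84.Tet.Core
set_option autoImplicit false
namespace Pool.Agent.Helper84.Tet
open MeasureTheory Filter Topology
open scoped Pointwise ENNReal

/-- The sixteen linear inequalities defining the body `K_e`. -/
def Kin (e x y z : ℝ) : Prop :=
  (-x - y - z ≤ 1 + e) ∧
  (83 / 125 * (-x - y - z - 1) ≤ e * (1 - x)) ∧
  (83 / 125 * (-x - y - z - 1) ≤ e * (1 - y)) ∧
  (83 / 125 * (-x - y - z - 1) ≤ e * (1 - z)) ∧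
  (-x + y + z ≤ 1 + e) ∧
  (83 / 125 * (-x + y + z - 1) ≤ e * (1 - x)) ∧
  (83 / 125 * (-x + y + z - 1) ≤ e * (1 + y)) ∧
  (83 / 125 * (-x + y + z - 1) ≤ e * (1 + z)) ∧
  (x - y + z ≤ 1 + e) ∧
  (83 / 125 * (x - y + z - 1) ≤ e * (1 + x)) ∧
  (83 / 125 * (x - y + z - 1) ≤ e * (1 - y)) ∧
  (83 / 125 * (x - y + z - 1) ≤ e * (1 + z)) ∧
  (x + y - z ≤ 1 + e) ∧
  (83 / 125 * (x + y - z - 1) ≤ e * (1 + x)) ∧
  (83 / 125 * (x + y - z - 1) ≤ e * (1 + y)) ∧
  (83 / 125 * (x + y - z - 1) ≤ e * (1 - z))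

/-- The strict inequalities. -/
def KinS (e x y z : ℝ) : Prop :=
  (-x - y - z < 1 + e) ∧
  (83 / 125 * (-x - y - z - 1) < e * (1 - x)) ∧
  (83 / 125 * (-x - y - z - 1) < e * (1 - y)) ∧
  (83 / 125 * (-x - y - z - 1) < e * (1 - z)) ∧
  (-x + y + z < 1 + e) ∧
  (83 / 125 * (-x + y + z - 1) < e * (1 - x)) ∧
  (83 / 125 * (-x + y + z - 1) < e * (1 + y)) ∧
  (83 / 125 * (-x + y + z - 1) < e * (1 + z)) ∧
  (x - y + z < 1 + e) ∧
  (83 / 125 * (x - y + z - 1) < e * (1 + x)) ∧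
  (83 / 125 * (x - y + z - 1) < e * (1 - y)) ∧
  (83 / 125 * (x - y + z - 1) < e * (1 + z)) ∧
  (x + y - z < 1 + e) ∧
  (83 / 125 * (x + y - z - 1) < e * (1 + x)) ∧
  (83 / 125 * (x + y - z - 1) < e * (1 + y)) ∧
  (83 / 125 * (x + y - z - 1) < e * (1 - z))

theorem KinS.toKin {e x y z : ℝ} (h : KinS e x y z) : Kin e x y z := by
  obtain ⟨h1, h2, h3, h4, h5, h6, h7, h8, h9, h10, h11, h12, h13, h14, h15, h16⟩ := h
  exact ⟨h1.le, h2.le, h3.le, h4.le, h5.le, h6.le, h7.le, h8.le, h9.le, h10.le, h11.le, h12.le,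
    h13.le, h14.le, h15.le, h16.le⟩

theorem KinS.swap12 {e x y z : ℝ} (h : KinS e x y z) : KinS e y x z := by
  obtain ⟨h1, h2, h3, h4, h5, h6, h7, h8, h9, h10, h11, h12, h13, h14, h15, h16⟩ := h
  refine ⟨?_, ?_, ?_, ?_, ?_, ?_, ?_, ?_, ?_, ?_, ?_, ?_, ?_, ?_, ?_, ?_⟩ <;> linarith

theorem KinS.swap23 {e x y z : ℝ} (h : KinS e x y z) : KinS e x z y := by
  obtain ⟨h1, h2, h3, h4, h5, h6, h7, h8, h9, h10, h11, h12, h13, h14, h15, h16⟩ := h
  refine ⟨?_, ?_, ?_, ?_, ?_, ?_, ?_, ?_, ?_, ?_, ?_, ?_, ?_, ?_, ?_, ?_⟩ <;> linarith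

theorem KinS.flip12 {e x y z : ℝ} (h : KinS e x y z) : KinS e (-x) (-y) z := by
  obtain ⟨h1, h2, h3, h4, h5, h6, h7, h8, h9, h10, h11, h12, h13, h14, h15, h16⟩ := h
  refine ⟨?_, ?_, ?_, ?_, ?_, ?_, ?_, ?_, ?_, ?_, ?_, ?_, ?_, ?_, ?_, ?_⟩ <;> linarith

theorem KinS.flip23 {e x y z : ℝ} (h : KinS e x y z) : KinS e x (-y) (-z) := by
  obtain ⟨h1, h2, h3, h4, h5, h6, h7, h8, h9, h10, h11, h12, h13, h14, h15, h16⟩ := h
  refine ⟨?_, ?_, ?_, ?_, ?_, ?_, ?_, ?_, ?_, ?_, ?_, ?_, ?_, ?_, ?_, ?_⟩ <;> linarith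

theorem KinS_of_T {e x y z : ℝ} (he : 0 < e) (h1 : -x - y - z < 1) (h2 : -x + y + z < 1)
    (h3 : x - y + z < 1) (h4 : x + y - z < 1) : KinS e x y z := by
  have a1 : 0 ≤ e * (1 - x) := mul_nonneg he.le (by linarith)
  have a2 : 0 ≤ e * (1 + x) := mul_nonneg he.le (by linarith)
  have a3 : 0 ≤ e * (1 - y) := mul_nonneg he.le (by linarith)
  have a4 : 0 ≤ e * (1 + y) := mul_nonneg he.le (by linarith)
  have a5 : 0 ≤ e * (1 - z) := mul_nonneg he.le (by linarith)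
  have a6 : 0 ≤ e * (1 + z) := mul_nonneg he.le (by linarith)
  refine ⟨?_, ?_, ?_, ?_, ?_, ?_, ?_, ?_, ?_, ?_, ?_, ?_, ?_, ?_, ?_, ?_⟩ <;> linarith

theorem Kin_of_T {e x y z : ℝ} (he : 0 ≤ e) (h1 : -x - y - z ≤ 1) (h2 : -x + y + z ≤ 1)
    (h3 : x - y + z ≤ 1) (h4 : x + y - z ≤ 1) : Kin e x y z := by
  have a1 : 0 ≤ e * (1 - x) := mul_nonneg he (by linarith)
  have a2 : 0 ≤ e * (1 + x) := mul_nonneg he (by linarith)
  have a3 : 0 ≤ e * (1 - y) := mul_nonneg he (by linarith)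
  have a4 : 0 ≤ e * (1 + y) := mul_nonneg he (by linarith)
  have a5 : 0 ≤ e * (1 - z) := mul_nonneg he (by linarith)
  have a6 : 0 ≤ e * (1 + z) := mul_nonneg he (by linarith)
  refine ⟨?_, ?_, ?_, ?_, ?_, ?_, ?_, ?_, ?_, ?_, ?_, ?_, ?_, ?_, ?_, ?_⟩ <;> linarith

/-- Differences of interior points of the tetrahedron. -/
theorem T_diff {e x y z : ℝ} (he : 0 < e) (hx : |x| < 2) (hy : |y| < 2) (hz : |z| < 2)
    (hs : |x| + |y| + |z| < 4) :
    ∃ p q r : ℝ, KinS e p q r ∧ KinS e (p + x) (q + y) (r + z) := by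
  have x1 := le_abs_self x
  have x2 := neg_abs_le x
  have y1 := le_abs_self y
  have y2 := neg_abs_le y
  have z1 := le_abs_self z
  have z2 := neg_abs_le z
  obtain ⟨s1, a1, b1, c1⟩ : ∃ s : ℝ, 0 ≤ s ∧ -x - y - z ≤ s ∧ (s = 0 ∨ s = -x - y - z) :=
    ⟨max (-x - y - z) 0, le_max_right _ _, le_max_left _ _, by
      rcases max_choice (-x - y - z) 0 with h | h
      · right; exact h
      · left; exact h⟩
  obtain ⟨s2, a2, b2, c2⟩ : ∃ s : ℝ, 0 ≤ s ∧ -x + y + z ≤ s ∧ (s = 0 ∨ s = -x + y + z) :=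
    ⟨max (-x + y + z) 0, le_max_right _ _, le_max_left _ _, by
      rcases max_choice (-x + y + z) 0 with h | h
      · right; exact h
      · left; exact h⟩
  obtain ⟨s3, a3, b3, c3⟩ : ∃ s : ℝ, 0 ≤ s ∧ x - y + z ≤ s ∧ (s = 0 ∨ s = x - y + z) :=
    ⟨max (x - y + z) 0, le_max_right _ _, le_max_left _ _, by
      rcases max_choice (x - y + z) 0 with h | h
      · right; exact h
      · left; exact h⟩
  obtain ⟨s4, a4, b4, c4⟩ : ∃ s : ℝ, 0 ≤ s ∧ x + y - z ≤ s ∧ (s = 0 ∨ s = x + y - z) :=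
    ⟨max (x + y - z) 0, le_max_right _ _, le_max_left _ _, by
      rcases max_choice (x + y - z) 0 with h | h
      · right; exact h
      · left; exact h⟩
  have hsum : s1 + s2 + s3 + s4 < 4 := by
    rcases c1 with c1 | c1 <;> rcases c2 with c2 | c2 <;> rcases c3 with c3 | c3 <;>
      rcases c4 with c4 | c4 <;> linarith
  refine ⟨(s1 + s2 - s3 - s4) / 4, (s1 - s2 + s3 - s4) / 4, (s1 - s2 - s3 + s4) / 4, ?_, ?_⟩
  · apply KinS_of_T he <;> linarith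
  · apply KinS_of_T he <;> linarith

theorem KinS_edge {e u s : ℝ} (he : 0 < e) (he' : e ≤ 1 / 1000) (hu : 0 ≤ u) (hu' : u < 1 + e)
    (hs1 : -(42 / 125) ≤ s) (hs2 : s ≤ 42 / 125) : KinS e u s s := by
  have a1 : 0 ≤ e * u := mul_nonneg he.le hu
  have a2 : e * u ≤ 1 / 1000 * u := mul_le_mul_of_nonneg_right he' hu
  have a3 : 0 ≤ e * (42 / 125 - s) := mul_nonneg he.le (by linarith)
  have a4 : 0 ≤ e * (42 / 125 + s) := mul_nonneg he.le (by linarith)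
  refine ⟨?_, ?_, ?_, ?_, ?_, ?_, ?_, ?_, ?_, ?_, ?_, ?_, ?_, ?_, ?_, ?_⟩ <;> linarith

theorem edge_diff {e x y z : ℝ} (he : 0 < e) (he' : e ≤ 1 / 1000) (hx : |x| < 2 + 2 * e)
    (h1 : |y + z| ≤ 84 / 125) (h2 : |y - z| ≤ 84 / 125) :
    ∃ p q r : ℝ, KinS e p q r ∧ KinS e (p + x) (q + y) (r + z) := by
  obtain ⟨h1a, h1b⟩ := abs_le.1 h1
  obtain ⟨h2a, h2b⟩ := abs_le.1 h2
  obtain ⟨hxa, hxb⟩ := abs_lt.1 hx
  rcases le_total 0 x with h0 | h0
  · refine ⟨-(x / 2), -((y - z) / 2), (y - z) / 2, ?_, ?_⟩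
    · have := (KinS_edge (u := x / 2) (s := (y - z) / 2) he he' (by linarith) (by linarith)
        (by linarith) (by linarith)).flip12
      exact this
    · have := (KinS_edge (u := x / 2) (s := (y + z) / 2) he he' (by linarith) (by linarith)
        (by linarith) (by linarith))
      convert this using 1 <;> ring
  · refine ⟨-x / 2, -(y + z) / 2, -(y + z) / 2, ?_, ?_⟩
    · exact KinS_edge (u := -x / 2) (s := -(y + z) / 2) he he' (by linarith) (by linarith)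
        (by linarith) (by linarith)
    · have := (KinS_edge (u := -x / 2) (s := (z - y) / 2) he he' (by linarith) (by linarith)
        (by linarith) (by linarith)).flip12
      convert this using 1 <;> ring

theorem KinS_corner {e x y z : ℝ} (he : 0 < e) (he' : e ≤ 1 / 1000) (hx : 1 ≤ x) (hy : 1 ≤ y)
    (hz : 1 ≤ z) (h : x + y + z < 4 + e) : KinS e (1 - x) (1 - y) (1 - z) := by
  have a1 : 0 ≤ e * (x - 1) := mul_nonneg he.le (by linarith)
  have a2 : e * (x - 1) ≤ 1 / 1000 * (x - 1) := mul_le_mul_of_nonneg_right he' (by linarith)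
  have a3 : 0 ≤ e * (y - 1) := mul_nonneg he.le (by linarith)
  have a4 : e * (y - 1) ≤ 1 / 1000 * (y - 1) := mul_le_mul_of_nonneg_right he' (by linarith)
  have a5 : 0 ≤ e * (z - 1) := mul_nonneg he.le (by linarith)
  have a6 : e * (z - 1) ≤ 1 / 1000 * (z - 1) := mul_le_mul_of_nonneg_right he' (by linarith)
  refine ⟨?_, ?_, ?_, ?_, ?_, ?_, ?_, ?_, ?_, ?_, ?_, ?_, ?_, ?_, ?_, ?_⟩ <;> linarith

/-- Corner case: `(x,y,z)` (or its negative) is a vertex of the tetrahedron minus an interior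
point. -/
theorem corner_diff {e x y z : ℝ} (he : 0 < e) (he' : e ≤ 1 / 1000) (hx : 1 ≤ |x|) (hy : 1 ≤ |y|)
    (hz : 1 ≤ |z|) (h : |x| + |y| + |z| < 4 + e) :
    (∃ p q r : ℝ, Kin e p q r ∧ KinS e (p - x) (q - y) (r - z)) ∨
    (∃ p q r : ℝ, Kin e p q r ∧ KinS e (p + x) (q + y) (r + z)) := by
  have hc := KinS_corner he he' hx hy hz h
  have t1 : Kin e 1 1 1 := Kin_of_T he.le (by norm_num) (by norm_num) (by norm_num) (by norm_num)
  have t2 : Kin e 1 (-1) (-1) :=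
    Kin_of_T he.le (by norm_num) (by norm_num) (by norm_num) (by norm_num)
  have t3 : Kin e (-1) 1 (-1) :=
    Kin_of_T he.le (by norm_num) (by norm_num) (by norm_num) (by norm_num)
  have t4 : Kin e (-1) (-1) 1 :=
    Kin_of_T he.le (by norm_num) (by norm_num) (by norm_num) (by norm_num)
  rcases abs_cases x with ⟨hx1, hx2⟩ | ⟨hx1, hx2⟩ <;>
    rcases abs_cases y with ⟨hy1, hy2⟩ | ⟨hy1, hy2⟩ <;>
    rcases abs_cases z with ⟨hz1, hz2⟩ | ⟨hz1, hz2⟩ <;> rw [hx1, hy1, hz1] at hc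
  · left; exact ⟨1, 1, 1, t1, hc⟩
  · right
    refine ⟨-1, -1, 1, t4, ?_⟩
    convert hc.flip12 using 1 <;> ring
  · right
    refine ⟨-1, 1, -1, t3, ?_⟩
    convert hc.flip12.flip23 using 1 <;> ring
  · left
    refine ⟨1, -1, -1, t2, ?_⟩
    convert hc.flip23 using 1 <;> ring
  · right
    refine ⟨1, -1, -1, t2, ?_⟩
    convert hc.flip23 using 1 <;> ring
  · left
    refine ⟨-1, 1, -1, t3, ?_⟩
    convert hc.flip12.flip23 using 1 <;> ring
  · left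
    refine ⟨-1, -1, 1, t4, ?_⟩
    convert hc.flip12 using 1 <;> ring
  · right
    refine ⟨1, 1, 1, t1, ?_⟩
    convert hc using 1 <;> ring

/-- The body `K_e`. -/
def Kb (e : ℝ) : Set E3 := {v | Kin e (v 0) (v 1) (v 2)}

theorem Kb_convex (e : ℝ) : Convex ℝ (Kb e) := by
  intro x hx y hy a b ha hb hab
  obtain ⟨h1, h2, h3, h4, h5, h6, h7, h8, h9, h10, h11, h12, h13, h14, h15, h16⟩ := hx
  obtain ⟨g1, g2, g3, g4, g5, g6, g7, g8, g9, g10, g11, g12, g13, g14, g15, g16⟩ := hy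
  obtain rfl : b = 1 - a := by linarith
  show Kin e ((a • x + (1 - a) • y) 0) ((a • x + (1 - a) • y) 1) ((a • x + (1 - a) • y) 2)
  simp only [PiLp.add_apply, PiLp.smul_apply, smul_eq_mul]
  refine ⟨?_, ?_, ?_, ?_, ?_, ?_, ?_, ?_, ?_, ?_, ?_, ?_, ?_, ?_, ?_, ?_⟩
  · linarith [mul_le_mul_of_nonneg_left h1 ha, mul_le_mul_of_nonneg_left g1 hb]
  · linarith [mul_le_mul_of_nonneg_left h2 ha, mul_le_mul_of_nonneg_left g2 hb]
  · linarith [mul_le_mul_of_nonneg_left h3 ha, mul_le_mul_of_nonneg_left g3 hb]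
  · linarith [mul_le_mul_of_nonneg_left h4 ha, mul_le_mul_of_nonneg_left g4 hb]
  · linarith [mul_le_mul_of_nonneg_left h5 ha, mul_le_mul_of_nonneg_left g5 hb]
  · linarith [mul_le_mul_of_nonneg_left h6 ha, mul_le_mul_of_nonneg_left g6 hb]
  · linarith [mul_le_mul_of_nonneg_left h7 ha, mul_le_mul_of_nonneg_left g7 hb]
  · linarith [mul_le_mul_of_nonneg_left h8 ha, mul_le_mul_of_nonneg_left g8 hb]
  · linarith [mul_le_mul_of_nonneg_left h9 ha, mul_le_mul_of_nonneg_left g9 hb]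
  · linarith [mul_le_mul_of_nonneg_left h10 ha, mul_le_mul_of_nonneg_left g10 hb]
  · linarith [mul_le_mul_of_nonneg_left h11 ha, mul_le_mul_of_nonneg_left g11 hb]
  · linarith [mul_le_mul_of_nonneg_left h12 ha, mul_le_mul_of_nonneg_left g12 hb]
  · linarith [mul_le_mul_of_nonneg_left h13 ha, mul_le_mul_of_nonneg_left g13 hb]
  · linarith [mul_le_mul_of_nonneg_left h14 ha, mul_le_mul_of_nonneg_left g14 hb]
  · linarith [mul_le_mul_of_nonneg_left h15 ha, mul_le_mul_of_nonneg_left g15 hb]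
  · linarith [mul_le_mul_of_nonneg_left h16 ha, mul_le_mul_of_nonneg_left g16 hb]

theorem isOpen_KinS (e : ℝ) : IsOpen {v : E3 | KinS e (v 0) (v 1) (v 2)} := by
  unfold KinS
  repeat' apply IsOpen.and
  all_goals exact isOpen_lt (by fun_prop) (by fun_prop)

theorem isClosed_Kb (e : ℝ) : IsClosed (Kb e) := by
  unfold Kb Kin
  repeat' apply IsClosed.and
  all_goals exact isClosed_le (by fun_prop) (by fun_prop)

theorem interior_of_KinS {e : ℝ} {v : E3} (h : KinS e (v 0) (v 1) (v 2)) :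
    v ∈ interior (Kb e) :=
  interior_maximal (fun _ hw => KinS.toKin hw) (isOpen_KinS e) h

theorem Kb_compact (e : ℝ) : IsCompact (Kb e) := by
  apply Metric.isCompact_of_isClosed_isBounded (isClosed_Kb e)
  rw [Metric.isBounded_iff_subset_closedBall (0 : E3)]
  refine ⟨Real.sqrt (3 * (1 + e) ^ 2), ?_⟩
  rintro v ⟨h1, h2, h3, h4, h5, h6, h7, h8, h9, h10, h11, h12, h13, h14, h15, h16⟩
  rw [mem_closedBall_zero_iff, EuclideanSpace.norm_eq, Fin.sum_univ_three]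
  apply Real.sqrt_le_sqrt
  simp only [Real.norm_eq_abs, sq_abs]
  have a0 : (v 0) ^ 2 ≤ (1 + e) ^ 2 := by
    apply sq_le_sq'
    · linarith
    · linarith
  have a1 : (v 1) ^ 2 ≤ (1 + e) ^ 2 := by
    apply sq_le_sq'
    · linarith
    · linarith
  have a2 : (v 2) ^ 2 ≤ (1 + e) ^ 2 := by
    apply sq_le_sq'
    · linarith
    · linarith
  linarith

theorem Kb_convexBody {e : ℝ} (he : 0 < e) : IsConvexBody (Kb e) where
  convex := Kb_convex e
  isCompact := Kb_compact e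
  interior_nonempty := ⟨0, interior_of_KinS (KinS_of_T he (by simp) (by simp) (by simp)
    (by simp))⟩

/-- `a ∈ K`, `q ∈ int K` implies `a - q ∈ int K - int K`. -/
theorem diff_interior {K : Set E3} (hK : Convex ℝ K) {a q : E3} (ha : a ∈ K)
    (hq : q ∈ interior K) : ∃ a' ∈ interior K, ∃ q' ∈ interior K, a' - q' = a - q := by
  have hcont : Tendsto (fun η : ℝ => q + η • (q - a)) (𝓝 0) (𝓝 (q + (0 : ℝ) • (q - a))) :=
    (by fun_prop : Continuous (fun η : ℝ => q + η • (q - a))).tendsto 0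
  rw [zero_smul, add_zero] at hcont
  have h1 : ∀ᶠ η : ℝ in 𝓝 0, q + η • (q - a) ∈ interior K :=
    hcont (isOpen_interior.mem_nhds hq)
  obtain ⟨ε, hε, hε2⟩ := Metric.eventually_nhds_iff.1 h1
  set η := min (ε / 2) (1 / 2) with hη
  have hη0 : 0 < η := lt_min (by linarith) (by norm_num)
  have hη1 : η ≤ 1 / 2 := min_le_right _ _
  have hη2 : η < ε := lt_of_le_of_lt (min_le_left _ _) (by linarith)
  refine ⟨a + η • (q - a), ?_, q + η • (q - a), ?_, by abel⟩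
  · apply hK.openSegment_self_interior_subset_interior ha hq
    refine ⟨1 - η, η, by linarith, hη0, by ring, ?_⟩
    rw [sub_smul, smul_sub, one_smul]
    abel
  · apply hε2
    rw [Real.dist_eq, sub_zero, abs_of_pos hη0]
    exact hη2

theorem exists_diff {e : ℝ} (he : 0 < e) (he' : e ≤ 1 / 1000) (v : E3)
    (hv : ¬ Out e (v 0) (v 1) (v 2)) :
    ∃ a ∈ interior (Kb e), ∃ b ∈ interior (Kb e), v = a - b := by
  -- from an explicit pair
  have mk : ∀ p q r : ℝ, KinS e p q r → KinS e (p + v 0) (q + v 1) (r + v 2) →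
      ∃ a ∈ interior (Kb e), ∃ b ∈ interior (Kb e), v = a - b := by
    intro p q r h1 h2
    refine ⟨!₂[p + v 0, q + v 1, r + v 2], interior_of_KinS (by simpa using h2),
      !₂[p, q, r], interior_of_KinS (by simpa using h1), ?_⟩
    ext i
    fin_cases i <;> simp
  have hv' : ¬ OutD (v 0) (v 1) (v 2) ∨
      (|v 0| < 2 + 2 * e ∧ |v 1 + v 2| ≤ 84 / 125 ∧ |v 1 - v 2| ≤ 84 / 125) ∨
      (|v 1| < 2 + 2 * e ∧ |v 0 + v 2| ≤ 84 / 125 ∧ |v 0 - v 2| ≤ 84 / 125) ∨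
      (|v 2| < 2 + 2 * e ∧ |v 0 + v 1| ≤ 84 / 125 ∧ |v 0 - v 1| ≤ 84 / 125) ∨
      (1 ≤ |v 0| ∧ 1 ≤ |v 1| ∧ 1 ≤ |v 2| ∧ |v 0| + |v 1| + |v 2| < 4 + e) := by
    by_contra hcon
    apply hv
    rw [not_or, not_or, not_or, not_or, not_not] at hcon
    exact hcon
  rcases hv' with hv | ⟨h1, h2, h3⟩ | ⟨h1, h2, h3⟩ | ⟨h1, h2, h3⟩ | ⟨h1, h2, h3, h4⟩
  · unfold OutD at hv
    push Not at hv
    obtain ⟨p, q, r, g1, g2⟩ := T_diff he hv.1 hv.2.1 hv.2.2.1 hv.2.2.2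
    exact mk p q r g1 g2
  · obtain ⟨p, q, r, g1, g2⟩ := edge_diff he he' h1 h2 h3
    exact mk p q r g1 g2
  · obtain ⟨p, q, r, g1, g2⟩ := edge_diff he he' h1 h2 h3
    exact mk q p r g1.swap12 g2.swap12
  · obtain ⟨p, q, r, g1, g2⟩ := edge_diff he he' h1 h2 h3
    exact mk q r p g1.swap12.swap23 g2.swap12.swap23
  · rcases corner_diff he he' h1 h2 h3 h4 with ⟨p, q, r, g1, g2⟩ | ⟨p, q, r, g1, g2⟩
    · obtain ⟨a, ha, b, hb, hab⟩ := diff_interior (Kb_convex e) (a := !₂[p, q, r])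
        (q := !₂[p - v 0, q - v 1, r - v 2]) (by simpa [Kb] using g1)
        (interior_of_KinS (by simpa using g2))
      refine ⟨a, ha, b, hb, ?_⟩
      rw [hab]
      ext i
      fin_cases i <;> simp
    · obtain ⟨a, ha, b, hb, hab⟩ := diff_interior (Kb_convex e) (a := !₂[p, q, r])
        (q := !₂[p + v 0, q + v 1, r + v 2]) (by simpa [Kb] using g1)
        (interior_of_KinS (by simpa using g2))
      refine ⟨b, hb, a, ha, ?_⟩
      have : b - a = -(a - b) := by abel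
      rw [this, hab]
      ext i
      fin_cases i <;> simp

end Pool.Agent.Helper84.Tet
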