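import Pool.Agent.Helper84.Tet.Vol
set_option autoImplicit false
namespace Pool.Agent.Helper84.Tet
open MeasureTheory

/-- The truncated box `|v i| < c i`, `|v 0| + |v 1| + |v 2| < 4`. -/
def TBox (c : Fin 3 → ℝ) : Set (Fin 3 → ℝ) :=
  {v | (∀ i, |v i| < c i) ∧ |v 0| + |v 1| + |v 2| < 4}

theorem TBox_symm (c : Fin 3 → ℝ) : ∀ x ∈ TBox c, -x ∈ TBox c := by
  rintro x ⟨h1, h2⟩
  refine ⟨fun i => ?_, ?_⟩
  · rw [Pi.neg_apply, abs_neg]; exact h1 i
  · simp only [Pi.neg_apply, abs_neg]; exact h2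

theorem TBox_convex (c : Fin 3 → ℝ) : Convex ℝ (TBox c) := by
  intro x hx y hy a b ha hb hab
  have key : ∀ i, |(a • x + b • y) i| ≤ a * |x i| + b * |y i| := by
    intro i
    simp only [Pi.add_apply, Pi.smul_apply, smul_eq_mul]
    calc |a * x i + b * y i| ≤ |a * x i| + |b * y i| := abs_add_le _ _
      _ = a * |x i| + b * |y i| := by rw [abs_mul, abs_mul, abs_of_nonneg ha, abs_of_nonneg hb]
  have conv : ∀ s t C : ℝ, s < C → t < C → a * s + b * t < C := by
    intro s t C hs ht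
    rcases eq_or_lt_of_le ha with h | h
    · have hb1 : b = 1 := by linarith
      rw [← h, hb1]; linarith
    · have h1 : a * s < a * C := mul_lt_mul_of_pos_left hs h
      have h2 : b * t ≤ b * C := mul_le_mul_of_nonneg_left (le_of_lt ht) hb
      have h3 : a * C + b * C = C := by rw [← add_mul, hab, one_mul]
      linarith
  refine ⟨fun i => lt_of_le_of_lt (key i) (conv _ _ _ (hx.1 i) (hy.1 i)), ?_⟩
  have h := conv _ _ _ hx.2 hy.2
  have k0 := key 0
  have k1 := key 1
  have k2 := key 2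
  linarith

theorem vol_TBox_ge (c : Fin 3 → ℝ) (hc : ∀ i, 0 < c i) (hs : 4 ≤ c 0 + c 1 + c 2) :
    ENNReal.ofReal (8 * (c 0 * c 1 * c 2)) ≤
      volume (TBox c) + ENNReal.ofReal (4 / 3 * (c 0 + c 1 + c 2 - 4) ^ 3) := by
  have hbox : volume (Set.pi Set.univ (fun i : Fin 3 => Set.Ioo (-(c i)) (c i)))
      = ENNReal.ofReal (8 * (c 0 * c 1 * c 2)) := by
    rw [Real.volume_pi_Ioo, Fin.prod_univ_three, ← ENNReal.ofReal_mul (by linarith [hc 0]),
      ← ENNReal.ofReal_mul]
    · congr 1; ring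
    · have := hc 0; have := hc 1; nlinarith
  have hsub : Set.pi Set.univ (fun i : Fin 3 => Set.Ioo (-(c i)) (c i)) ⊆
      TBox c ∪ ⋃ k : Fin 2 × Fin 2 × Fin 2,
        {x : Fin 3 → ℝ | (fun i => sg k i * x i) ∈
          {y : Fin 3 → ℝ | (Matrix.diagonal (fun _ => (-1 : ℝ))).mulVec y + c ∈
            SimpC (c 0 + c 1 + c 2 - 4)}} := by
    intro x hx
    have hx' : ∀ i, |x i| < c i := by
      intro i
      have := hx i (Set.mem_univ i)
      rw [abs_lt]; exact this
    by_cases h4 : |x 0| + |x 1| + |x 2| < 4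
    · left; exact ⟨hx', h4⟩
    right
    simp only [Set.mem_iUnion]
    have key : ∀ y : ℝ, ∃ a : Fin 2, |y| = (if a = 0 then (1 : ℝ) else -1) * y := by
      intro y
      rcases abs_cases y with ⟨h, h'⟩ | ⟨h, h'⟩
      · exact ⟨0, by simp [h]⟩
      · exact ⟨1, by simp [h]⟩
    obtain ⟨a0, ha0⟩ := key (x 0)
    obtain ⟨a1, ha1⟩ := key (x 1)
    obtain ⟨a2, ha2⟩ := key (x 2)
    refine ⟨(a0, a1, a2), ?_⟩
    have e0 : sg (a0, a1, a2) 0 * x 0 = |x 0| := by rw [ha0]; rfl
    have e1 : sg (a0, a1, a2) 1 * x 1 = |x 1| := by rw [ha1]; rfl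
    have e2 : sg (a0, a1, a2) 2 * x 2 = |x 2| := by rw [ha2]; rfl
    simp only [Set.mem_ofPred_eq, SimpC, Matrix.mulVec_diagonal, Pi.add_apply, e0, e1, e2]
    have g0 := hx' 0
    have g1 := hx' 1
    have g2 := hx' 2
    refine ⟨by linarith, by linarith, by linarith, by linarith⟩
  have hdet : (Matrix.diagonal (fun _ : Fin 3 => (-1 : ℝ))).det = -1 := by
    rw [Matrix.det_diagonal, Fin.prod_univ_three]; norm_num
  have hcorner : ∀ k : Fin 2 × Fin 2 × Fin 2,
      volume {x : Fin 3 → ℝ | (fun i => sg k i * x i) ∈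
          {y : Fin 3 → ℝ | (Matrix.diagonal (fun _ => (-1 : ℝ))).mulVec y + c ∈
            SimpC (c 0 + c 1 + c 2 - 4)}} ≤ ENNReal.ofReal ((c 0 + c 1 + c 2 - 4) ^ 3 / 6) := by
    intro k
    rw [vol_flip, vol_preimage_matrix _ _ (by rw [hdet]; norm_num), hdet]
    simp only [inv_neg, inv_one, abs_neg, abs_one, ENNReal.ofReal_one, one_mul]
    exact vol_SimpC_le (by linarith)
  rw [← hbox]
  calc _ ≤ _ := measure_mono hsub
    _ ≤ volume (TBox c) + _ := measure_union_le _ _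
    _ ≤ volume (TBox c) + ∑ k : Fin 2 × Fin 2 × Fin 2,
        ENNReal.ofReal ((c 0 + c 1 + c 2 - 4) ^ 3 / 6) := by
        gcongr
        refine le_trans (measure_iUnion_fintype_le _ _) ?_
        exact Finset.sum_le_sum (fun k _ => hcorner k)
    _ = _ := by
        congr 1
        simp only [Finset.sum_const, Finset.card_univ, Fintype.card_prod, Fintype.card_fin]
        rw [nsmul_eq_mul, show (((2 * (2 * 2) : ℕ) : ENNReal)) = ENNReal.ofReal 8 by norm_num,
          ← ENNReal.ofReal_mul (by norm_num)]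
        congr 1; ring

theorem minkowski_TBox (L : Submodule ℤ (Fin 3 → ℝ)) [DiscreteTopology L] [IsZLattice ℝ L]
    (c : Fin 3 → ℝ) (hc : ∀ i, 0 < c i) (hs : 4 ≤ c 0 + c 1 + c 2)
    (hL : 8 * ZLattice.covolume L + 4 / 3 * (c 0 + c 1 + c 2 - 4) ^ 3 < 8 * (c 0 * c 1 * c 2)) :
    ∃ v ∈ L, v ≠ 0 ∧ v ∈ TBox c := by
  have fund := ZLattice.isAddFundamentalDomain (IsZLattice.basis L) volume
  set F := ZSpan.fundamentalDomain ((IsZLattice.basis L).ofZLatticeBasis ℝ) with hF
  have hcov : ZLattice.covolume L = volume.real F :=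
    ZLattice.covolume_eq_measure_fundamentalDomain L volume fund
  have hcovpos : 0 < ZLattice.covolume L := ZLattice.covolume_pos L volume
  have hfin : volume F ≠ ⊤ := by
    intro h
    rw [hcov, Measure.real, h] at hcovpos
    simp at hcovpos
  have hvF : volume F = ENNReal.ofReal (ZLattice.covolume L) := by
    rw [hcov, Measure.real, ENNReal.ofReal_toReal hfin]
  have hlt : volume F * 2 ^ Module.finrank ℝ (Fin 3 → ℝ) < volume (TBox c) := by
    have h1 := vol_TBox_ge c hc hs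
    rw [hvF, Module.finrank_fin_fun]
    have h8 : ((2 : ENNReal) ^ 3) = ENNReal.ofReal 8 := by norm_num
    rw [h8, ← ENNReal.ofReal_mul (le_of_lt hcovpos)]
    by_contra hcon
    push Not at hcon
    have h2 : ENNReal.ofReal (8 * (c 0 * c 1 * c 2)) ≤
        ENNReal.ofReal (ZLattice.covolume L * 8 + 4 / 3 * (c 0 + c 1 + c 2 - 4) ^ 3) := by
      have h3 : (0 : ℝ) ≤ c 0 + c 1 + c 2 - 4 := by linarith
      rw [ENNReal.ofReal_add (by positivity) (by positivity)]
      exact le_trans h1 (by gcongr)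
    rw [ENNReal.ofReal_le_ofReal_iff] at h2
    · linarith
    · have h3 : (0 : ℝ) ≤ c 0 + c 1 + c 2 - 4 := by linarith
      positivity
  haveI : Countable L.toAddSubgroup := (inferInstance : Countable L)
  obtain ⟨x, hx0, hx⟩ := exists_ne_zero_mem_lattice_of_measure_mul_two_pow_lt_measure
    (L := L.toAddSubgroup) fund (TBox_symm c) (TBox_convex c) hlt
  refine ⟨x, x.2, ?_, hx⟩
  intro h
  apply hx0
  exact Subtype.ext h

end Pool.Agent.Helper84.Tet
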