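import Pool.Agent.Helper84.Tet.Core
import Pool.Agent.Helper84.Tet.Mink
import Pool.Agent.Helper84.Tet.Half
set_option autoImplicit false
namespace Pool.Agent.Helper84.Tet
open MeasureTheory

theorem lin_max {A P Q a p q T : ℝ} (hP : 0 ≤ P) (hQ : 0 ≤ Q) (ha : 2 ≤ a) (ha' : a ≤ 19 / 8)
    (hp : 0 ≤ p) (hq : 0 ≤ q) (h : a + p + q ≤ 4) (h1 : 2 * A + 2 * P ≤ T)
    (h2 : 2 * A + 2 * Q ≤ T) (h3 : 19 / 8 * A + 13 / 8 * P ≤ T)
    (h4 : 19 / 8 * A + 13 / 8 * Q ≤ T) : a * A + p * P + q * Q ≤ T := by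
  rcases le_total Q P with hQP | hQP
  · have e1 : q * Q ≤ q * P := mul_le_mul_of_nonneg_left hQP hq
    have e2 : (p + q) * P ≤ (4 - a) * P := mul_le_mul_of_nonneg_right (by linarith) hP
    have e3 := mul_nonneg (sub_nonneg.2 ha') (sub_nonneg.2 h1)
    have e4 := mul_nonneg (sub_nonneg.2 ha) (sub_nonneg.2 h3)
    nlinarith
  · have e1 : p * P ≤ p * Q := mul_le_mul_of_nonneg_left hQP hp
    have e2 : (p + q) * Q ≤ (4 - a) * Q := mul_le_mul_of_nonneg_right (by linarith) hQ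
    have e3 := mul_nonneg (sub_nonneg.2 ha') (sub_nonneg.2 h2)
    have e4 := mul_nonneg (sub_nonneg.2 ha) (sub_nonneg.2 h4)
    nlinarith

theorem perm_le {a b c p q p' r q' r' : ℝ} (ha : 2 ≤ a) (ha' : a ≤ 19 / 8) (hb : 2 ≤ b)
    (hb' : b ≤ 19 / 8) (hc : 2 ≤ c) (hc' : c ≤ 19 / 8) (hp : 0 ≤ p) (hq : 0 ≤ q) (hp' : 0 ≤ p')
    (hr : 0 ≤ r) (hq' : 0 ≤ q') (hr' : 0 ≤ r') (h1 : a + p + q ≤ 4) (h2 : b + p' + r ≤ 4)
    (h3 : c + q' + r' ≤ 4) :
    a * (b * c + r * r') + p * (r * q' + c * p') + q * (p' * r' + b * q') ≤ 79 / 4 := by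
  have hb0 : 0 ≤ b := by linarith
  have hc0 : 0 ≤ c := by linarith
  have key : ∀ A P Q : ℝ, 0 ≤ P → 0 ≤ Q → 2 * A + 2 * P ≤ 79 / 4 → 2 * A + 2 * Q ≤ 79 / 4 →
      19 / 8 * A + 13 / 8 * P ≤ 79 / 4 → 19 / 8 * A + 13 / 8 * Q ≤ 79 / 4 →
      b * A + p' * P + r * Q ≤ 79 / 4 :=
    fun A P Q hP hQ g1 g2 g3 g4 => lin_max hP hQ hb hb' hp' hr h2 g1 g2 g3 g4
  apply lin_max (by positivity) (by positivity) ha ha' hp hq h1
  · have := key (2 * c) (2 * c) (2 * r' + 2 * q') (by positivity) (by positivity)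
      (by linarith) (by linarith) (by linarith) (by linarith)
    linarith
  · have := key (2 * c + 2 * q') (2 * r') (2 * r') (by positivity) (by positivity)
      (by linarith) (by linarith) (by linarith) (by linarith)
    linarith
  · have := key (19 / 8 * c) (13 / 8 * c) (19 / 8 * r' + 13 / 8 * q') (by positivity)
      (by positivity) (by linarith) (by linarith) (by linarith) (by linarith)
    linarith
  · have := key (19 / 8 * c + 13 / 8 * q') (13 / 8 * r') (19 / 8 * r') (by positivity)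
      (by positivity) (by linarith) (by linarith) (by linarith) (by linarith)
    linarith

theorem det_abs_le {m11 m12 m13 m21 m22 m23 m31 m32 m33 : ℝ}
    (d1 : 2 ≤ m11) (d2 : 2 ≤ m22) (d3 : 2 ≤ m33)
    (k1 : m11 ≤ 19 / 8) (k2 : m22 ≤ 19 / 8) (k3 : m33 ≤ 19 / 8)
    (r1 : m11 + |m12| + |m13| ≤ 4) (r2 : m22 + |m21| + |m23| ≤ 4)
    (r3 : m33 + |m31| + |m32| ≤ 4) :
    |det3 m11 m12 m13 m21 m22 m23 m31 m32 m33| ≤ 79 / 4 := by
  have h := perm_le d1 k1 d2 k2 d3 k3 (abs_nonneg m12) (abs_nonneg m13) (abs_nonneg m21)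
    (abs_nonneg m23) (abs_nonneg m31) (abs_nonneg m32) r1 r2 r3
  refine le_trans ?_ h
  have a1 : |m11| = m11 := abs_of_nonneg (by linarith)
  have a2 : |m22| = m22 := abs_of_nonneg (by linarith)
  have a3 : |m33| = m33 := abs_of_nonneg (by linarith)
  have t : ∀ x y z : ℝ, |x * y * z| = |x| * |y| * |z| := fun x y z => by rw [abs_mul, abs_mul]
  unfold det3
  have h1 := abs_sub (m11 * m22 * m33 + m12 * m23 * m31 + m13 * m21 * m32 - m11 * m23 * m32
    - m22 * m13 * m31) (m33 * m12 * m21)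
  have h2 := abs_sub (m11 * m22 * m33 + m12 * m23 * m31 + m13 * m21 * m32 - m11 * m23 * m32)
    (m22 * m13 * m31)
  have h3 := abs_sub (m11 * m22 * m33 + m12 * m23 * m31 + m13 * m21 * m32) (m11 * m23 * m32)
  have h4 := abs_add_le (m11 * m22 * m33 + m12 * m23 * m31) (m13 * m21 * m32)
  have h5 := abs_add_le (m11 * m22 * m33) (m12 * m23 * m31)
  rw [t] at h1 h2 h3 h4 h5
  rw [t] at h5
  rw [a1, a2, a3] at *
  nlinarith

/-- Integral coordinates of three lattice vectors. -/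
theorem exists_coord (L : Submodule ℤ (Fin 3 → ℝ)) [DiscreteTopology L] [IsZLattice ℝ L]
    (b : Fin 3 → (Fin 3 → ℝ)) (hb : ∀ i, b i ∈ L) :
    ∃ C : Matrix (Fin 3) (Fin 3) ℤ,
      |(Matrix.of b).det| = |(C.det : ℝ)| * ZLattice.covolume L ∧
      ∀ r : Fin 3 → ℤ, (∀ j, (2 : ℤ) ∣ ∑ i, r i * C i j) →
        ∃ w ∈ L, (2 : ℝ) • w = ∑ i, (r i : ℝ) • b i := by
  classical
  let B := IsZLattice.basis L
  let C : Matrix (Fin 3) (Fin 3) ℤ := fun i j => B.repr ⟨b i, hb i⟩ j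
  have hC : ∀ i, b i = ∑ j, (C i j : ℝ) • ((B j : L) : Fin 3 → ℝ) := by
    intro i
    have h := B.sum_repr ⟨b i, hb i⟩
    have h2 := congrArg (fun x : L => (x : Fin 3 → ℝ)) h
    simp only [Submodule.coe_sum, Submodule.coe_smul] at h2
    rw [← h2]
    refine Finset.sum_congr rfl (fun j _ => ?_)
    rw [Int.cast_smul_eq_zsmul]
  refine ⟨C, ?_, ?_⟩
  · have hcov := ZLattice.covolume_eq_det L B
    have hmul : Matrix.of b = (C.map (Int.cast : ℤ → ℝ)) * Matrix.of ((↑) ∘ B) := by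
      ext i k
      rw [Matrix.mul_apply, Matrix.of_apply, hC i]
      simp [Finset.sum_apply]
    rw [hmul, Matrix.det_mul, abs_mul, hcov]
    congr 2
    have := (Int.castRingHom ℝ).map_det C
    simpa using this.symm
  · intro r hr
    choose k hk using hr
    refine ⟨∑ j, (k j) • ((B j : L) : Fin 3 → ℝ), ?_, ?_⟩
    · exact Submodule.sum_mem _ (fun j _ => Submodule.smul_mem _ _ (B j).2)
    · simp only [hC]
      ext x
      simp only [Pi.smul_apply, Finset.sum_apply, smul_eq_mul, Finset.mul_sum]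
      rw [Finset.sum_comm]
      refine Finset.sum_congr rfl (fun j _ => ?_)
      have hk' : (∑ i, (r i : ℝ) * (C i j : ℝ)) = 2 * (k j : ℝ) := by
        have := hk j
        exact_mod_cast this
      simp only [zsmul_eq_mul]
      rw [← mul_assoc]
      calc (2 : ℝ) * (k j : ℝ) * ((B j : L) : Fin 3 → ℝ) x
          = (∑ i, (r i : ℝ) * (C i j : ℝ)) * ((B j : L) : Fin 3 → ℝ) x := by rw [hk']
        _ = ∑ i, (r i : ℝ) * ((C i j : ℝ) * ((B j : L) : Fin 3 → ℝ) x) := by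
          rw [Finset.sum_mul]
          refine Finset.sum_congr rfl (fun i _ => ?_)
          ring

/-- An even determinant gives a nonzero `0,1`-combination of rows divisible by two. -/
theorem exists_even_comb (C : Matrix (Fin 3) (Fin 3) ℤ) (hC : (2 : ℤ) ∣ C.det) :
    ∃ r : Fin 3 → ℤ, (∀ i, r i = 0 ∨ r i = 1) ∧ r ≠ 0 ∧ ∀ j, (2 : ℤ) ∣ ∑ i, r i * C i j := by
  have h0 : (C.map (Int.castRingHom (ZMod 2))).det = 0 := by
    have h1 := (Int.castRingHom (ZMod 2)).map_det C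
    rw [RingHom.mapMatrix_apply] at h1
    rw [← h1]
    simpa using (ZMod.intCast_zmod_eq_zero_iff_dvd C.det 2).2 (by exact_mod_cast hC)
  obtain ⟨v, hv, hvC⟩ := Matrix.exists_vecMul_eq_zero_iff.2 h0
  refine ⟨fun i => ((v i).val : ℤ), ?_, ?_, ?_⟩
  · intro i
    have : (v i).val < 2 := ZMod.val_lt (v i)
    show ((v i).val : ℤ) = 0 ∨ ((v i).val : ℤ) = 1
    omega
  · intro h
    apply hv
    ext i
    have h2 := congrFun h i
    simp only [Pi.zero_apply, Nat.cast_eq_zero] at h2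
    have : v i = 0 := by
      rw [← ZMod.val_eq_zero]; exact h2
    rw [this]; rfl
  · intro j
    have h2 := congrFun hvC j
    rw [Matrix.vecMul, dotProduct] at h2
    have h3 : (((∑ i, ((v i).val : ℤ) * C i j : ℤ)) : ZMod 2) = 0 := by
      push_cast
      refine Eq.trans (Finset.sum_congr rfl (fun i _ => ?_)) h2
      simp
    exact_mod_cast (ZMod.intCast_zmod_eq_zero_iff_dvd _ 2).1 h3

theorem OutD.swap12 {x y z : ℝ} (h : OutD x y z) : OutD y x z := by
  unfold OutD at *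
  rw [add_comm |y| |x|]
  tauto

theorem OutD.swap23 {x y z : ℝ} (h : OutD x y z) : OutD x z y := by
  unfold OutD at *
  rw [add_right_comm |x| |z| |y|]
  tauto

theorem no_half2 {m11 m12 m13 m21 m22 m23 : ℝ}
    (d1 : 2 ≤ m11) (d2 : 2 ≤ m22) (k1 : m11 ≤ 19 / 8) (k2 : m22 ≤ 19 / 8)
    (r1 : m11 + m12 + m13 < 4) (r2 : m11 + m12 - m13 < 4) (r3 : m11 - m12 + m13 < 4)
    (r4 : m11 - m12 - m13 < 4)
    (s1 : m22 + m21 + m23 < 4) (s2 : m22 + m21 - m23 < 4) (s3 : m22 - m21 + m23 < 4)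
    (s4 : m22 - m21 - m23 < 4)
    (o1 : OutD ((m11 + m21) / 2) ((m12 + m22) / 2) ((m13 + m23) / 2))
    (o2 : OutD ((m11 - m21) / 2) ((m12 - m22) / 2) ((m13 - m23) / 2)) :
    False := by
  rcases o1.alts with h | h | h | h | h | h | h | h | h | h | h | h | h | h
  all_goals try linarith
  all_goals rcases o2.alts with g | g | g | g | g | g | g | g | g | g | g | g | g | g
  all_goals linarith

theorem abs4 {a x y : ℝ} (h : a + |x| + |y| < 4) :
    a + x + y < 4 ∧ a + x - y < 4 ∧ a - x + y < 4 ∧ a - x - y < 4 := by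
  have h1 := le_abs_self x
  have h2 := neg_abs_le x
  have h3 := le_abs_self y
  have h4 := neg_abs_le y
  refine ⟨?_, ?_, ?_, ?_⟩ <;> linarith

end Pool.Agent.Helper84.Tet
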