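import Pool.Agent.Helper84.Tet.Body
import Pool.Agent.Helper84.Tet.Vol
set_option autoImplicit false
namespace Pool.Agent.Helper84.Tet
open MeasureTheory Filter Topology
open scoped ENNReal

/-- The truncating tetrahedra, in normalised coordinates. -/
def KT (e p q r : ℝ) : Prop :=
  0 < e * (p - r) ∧ 0 < e * (q - r) ∧ 0 < (83 / 125 + e) * (1 + e - (p + q - r)) ∧
    e * (p - r) + e * (q - r) + (83 / 125 + e) * (1 + e - (p + q - r)) < e * (83 / 125 + e)

theorem KT.facts {e p q r : ℝ} (he : 0 < e) (h : KT e p q r) :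
    r < p ∧ r < q ∧ p + q - r < 1 + e ∧ e * (1 - r) < 83 / 125 * (p + q - r - 1) ∧ 0 < r := by
  obtain ⟨h1, h2, h3, h4⟩ := h
  have g1 : r < p := by
    have := pos_of_mul_pos_right h1 he.le
    linarith
  have g2 : r < q := by
    have := pos_of_mul_pos_right h2 he.le
    linarith
  have g3 : p + q - r < 1 + e := by
    have := pos_of_mul_pos_right h3 (by positivity)
    linarith
  have g4 : e * (1 - r) < 83 / 125 * (p + q - r - 1) := by nlinarith
  refine ⟨g1, g2, g3, g4, ?_⟩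
  by_contra hr
  push Not at hr
  have : 0 ≤ e * (-r) := mul_nonneg he.le (by linarith)
  linarith

/-- The matrix giving the simplex coordinates of a truncating tetrahedron. -/
noncomputable def MT (e : ℝ) : Matrix (Fin 3) (Fin 3) ℝ :=
  !![e, 0, -e; 0, e, -e; -(83 / 125 + e), -(83 / 125 + e), (83 / 125 + e)]

theorem MT_det (e : ℝ) : (MT e).det = -(e ^ 2 * (83 / 125 + e)) := by
  rw [MT, Matrix.det_fin_three]
  simp
  ring

theorem vol_KT {e : ℝ} (he : 0 < e) :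
    ENNReal.ofReal (e * (83 / 125 + e) ^ 2 / 6) ≤
      volume {x : Fin 3 → ℝ | KT e (x 0) (x 1) (x 2)} := by
  have hset : {x : Fin 3 → ℝ | KT e (x 0) (x 1) (x 2)} =
      {x : Fin 3 → ℝ | (MT e).mulVec x + ![0, 0, (83 / 125 + e) * (1 + e)] ∈
        SimpO (e * (83 / 125 + e))} := by
    ext x
    simp only [Set.mem_ofPred_eq, SimpO, KT, MT, Matrix.mulVec, dotProduct, Fin.sum_univ_three,
      Pi.add_apply]
    simp
    constructor
    · rintro ⟨h1, h2, h3, h4⟩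
      refine ⟨?_, ?_, ?_, ?_⟩ <;> nlinarith
    · rintro ⟨h1, h2, h3, h4⟩
      refine ⟨?_, ?_, ?_, ?_⟩ <;> nlinarith
  have hdet : (MT e).det ≠ 0 := by
    rw [MT_det]
    have : 0 < e ^ 2 * (83 / 125 + e) := by positivity
    linarith
  rw [hset, vol_preimage_matrix _ _ hdet, MT_det]
  have h1 := le_vol_SimpO (s := e * (83 / 125 + e)) (by positivity)
  refine le_trans ?_ (mul_le_mul_right h1 _)
  rw [← ENNReal.ofReal_mul (by positivity)]
  apply ENNReal.ofReal_le_ofReal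
  rw [abs_inv, abs_neg, abs_of_pos (by positivity)]
  apply le_of_eq
  field_simp

/-- Sign vectors of the four vertices of the tetrahedron. -/
def vs : Fin 4 → Fin 3 → ℝ := ![![1, 1, 1], ![1, -1, -1], ![-1, 1, -1], ![-1, -1, 1]]

/-- Signed permutation matrices. -/
def PM (a : Fin 4) (k : Fin 3) : Matrix (Fin 3) (Fin 3) ℝ :=
  match k with
  | 0 => !![0, vs a 1, 0; 0, 0, vs a 2; vs a 0, 0, 0]
  | 1 => !![0, 0, vs a 2; vs a 0, 0, 0; 0, vs a 1, 0]
  | 2 => !![vs a 0, 0, 0; 0, vs a 1, 0; 0, 0, vs a 2]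

theorem PM_det (a : Fin 4) (k : Fin 3) : (PM a k).det = vs a 0 * vs a 1 * vs a 2 := by
  fin_cases k <;> simp [PM, Matrix.det_fin_three] <;> ring

theorem vs_prod (a : Fin 4) : vs a 0 * vs a 1 * vs a 2 = 1 := by
  fin_cases a <;> simp [vs]

/-- The twelve truncating tetrahedra. -/
def tau (e : ℝ) (i : Fin 4 × Fin 3) : Set (Fin 3 → ℝ) :=
  {x | (PM i.1 i.2).mulVec x + 0 ∈ {y : Fin 3 → ℝ | KT e (y 0) (y 1) (y 2)}}

theorem vol_tau (e : ℝ) (i : Fin 4 × Fin 3) :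
    volume (tau e i) = volume {x : Fin 3 → ℝ | KT e (x 0) (x 1) (x 2)} := by
  unfold tau
  rw [vol_preimage_matrix _ _ (by rw [PM_det, vs_prod]; norm_num), PM_det, vs_prod]
  simp

theorem tau_cases {e : ℝ} {i : Fin 4 × Fin 3} {x : Fin 3 → ℝ} (h : x ∈ tau e i) :
    (i.2 = 0 ∧ KT e (vs i.1 1 * x 1) (vs i.1 2 * x 2) (vs i.1 0 * x 0)) ∨
    (i.2 = 1 ∧ KT e (vs i.1 2 * x 2) (vs i.1 0 * x 0) (vs i.1 1 * x 1)) ∨
    (i.2 = 2 ∧ KT e (vs i.1 0 * x 0) (vs i.1 1 * x 1) (vs i.1 2 * x 2)) := by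
  obtain ⟨a, k⟩ := i
  unfold tau at h
  simp only [Set.mem_ofPred_eq, add_zero] at h
  fin_cases k
  · left
    simpa [PM, Matrix.mulVec, dotProduct, Fin.sum_univ_three] using h
  · right; left
    simpa [PM, Matrix.mulVec, dotProduct, Fin.sum_univ_three] using h
  · right; right
    simpa [PM, Matrix.mulVec, dotProduct, Fin.sum_univ_three] using h

theorem tau_pos {e : ℝ} (he : 0 < e) {i : Fin 4 × Fin 3} {x : Fin 3 → ℝ} (h : x ∈ tau e i) :
    0 < vs i.1 0 * x 0 ∧ 0 < vs i.1 1 * x 1 ∧ 0 < vs i.1 2 * x 2 := by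
  rcases tau_cases h with ⟨_, h⟩ | ⟨_, h⟩ | ⟨_, h⟩ <;>
    obtain ⟨h1, h2, h3, h4, h5⟩ := h.facts he
  · exact ⟨h5, by linarith, by linarith⟩
  · exact ⟨by linarith, h5, by linarith⟩
  · exact ⟨by linarith, by linarith, h5⟩

theorem tau_disjoint {e : ℝ} (he : 0 < e) : Pairwise (Function.onFun Disjoint (tau e)) := by
  intro i j hij
  rw [Function.onFun, Set.disjoint_left]
  intro x hi hj
  have hp := tau_pos he hi
  have hq := tau_pos he hj
  have ha : i.1 = j.1 := by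
    obtain ⟨a, k⟩ := i
    obtain ⟨b, l⟩ := j
    simp only at hp hq ⊢
    obtain ⟨p0, p1, p2⟩ := hp
    obtain ⟨q0, q1, q2⟩ := hq
    fin_cases a <;> fin_cases b <;> simp [vs] at p0 p1 p2 q0 q1 q2 ⊢ <;> linarith
  apply hij
  refine Prod.ext ha ?_
  have hi' := tau_cases hi
  have hj' := tau_cases hj
  rw [← ha] at hj'
  rcases hi' with ⟨g, hi'⟩ | ⟨g, hi'⟩ | ⟨g, hi'⟩ <;> rcases hj' with ⟨g', hj'⟩ | ⟨g', hj'⟩ | ⟨g', hj'⟩ <;>
    rw [g, g'] <;> exfalso <;> obtain ⟨h1, h2, h3, h4, h5⟩ := hi'.facts he <;>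
    obtain ⟨k1, k2, k3, k4, k5⟩ := hj'.facts he <;> linarith

theorem tau_not_Kin {e : ℝ} (he : 0 < e) {i : Fin 4 × Fin 3} {x : Fin 3 → ℝ} (h : x ∈ tau e i) :
    ¬ Kin e (x 0) (x 1) (x 2) := by
  rintro ⟨h1, h2, h3, h4, h5, h6, h7, h8, h9, h10, h11, h12, h13, h14, h15, h16⟩
  obtain ⟨a, k⟩ := i
  rcases tau_cases h with ⟨_, h⟩ | ⟨_, h⟩ | ⟨_, h⟩ <;>
    obtain ⟨g1, g2, g3, g4, g5⟩ := h.facts he <;> fin_cases a <;> simp [vs] at g4 <;> linarith

/-- The homothetic tetrahedron containing `K_e`. -/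
def TT (h : ℝ) : Set (Fin 3 → ℝ) :=
  {x | -x 0 - x 1 - x 2 ≤ h ∧ -x 0 + x 1 + x 2 ≤ h ∧ x 0 - x 1 + x 2 ≤ h ∧ x 0 + x 1 - x 2 ≤ h}

theorem tau_subset {e : ℝ} (he : 0 < e) (i : Fin 4 × Fin 3) : tau e i ⊆ TT (1 + e) := by
  intro x h
  obtain ⟨a, k⟩ := i
  have hp := tau_pos he h
  obtain ⟨p0, p1, p2⟩ := hp
  rcases tau_cases h with ⟨_, h⟩ | ⟨_, h⟩ | ⟨_, h⟩ <;>
    obtain ⟨g1, g2, g3, g4, g5⟩ := h.facts he <;> fin_cases a <;>
    simp [vs] at p0 p1 p2 g1 g2 g3 g4 g5 <;> refine ⟨?_, ?_, ?_, ?_⟩ <;> linarith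

theorem vol_TT_le {h : ℝ} (hh : 0 ≤ h) : volume (TT h) ≤ ENNReal.ofReal (8 / 3 * h ^ 3) := by
  have hset : TT h ⊆ {x : Fin 3 → ℝ |
      (!![1, -1, -1; -1, 1, -1; -1, -1, 1] : Matrix (Fin 3) (Fin 3) ℝ).mulVec x + ![h, h, h] ∈
        SimpC (4 * h)} := by
    rintro x ⟨h1, h2, h3, h4⟩
    simp only [Set.mem_ofPred_eq, SimpC, Matrix.mulVec, dotProduct, Fin.sum_univ_three,
      Pi.add_apply]
    simp
    refine ⟨?_, ?_, ?_, ?_⟩ <;> linarith
  have hdet : (!![1, -1, -1; -1, 1, -1; -1, -1, 1] : Matrix (Fin 3) (Fin 3) ℝ).det = -4 := by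
    rw [Matrix.det_fin_three]
    simp
    norm_num
  refine le_trans (measure_mono hset) ?_
  rw [vol_preimage_matrix _ _ (by rw [hdet]; norm_num), hdet]
  have h1 := vol_SimpC_le (s := 4 * h) (by positivity)
  refine le_trans (mul_le_mul_right h1 _) ?_
  rw [← ENNReal.ofReal_mul (by positivity)]
  apply ENNReal.ofReal_le_ofReal
  rw [abs_inv, abs_neg, abs_of_pos (by norm_num : (0 : ℝ) < 4)]
  apply le_of_eq
  ring

theorem measurableSet_KT (e : ℝ) :
    MeasurableSet {x : Fin 3 → ℝ | KT e (x 0) (x 1) (x 2)} := by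
  apply IsOpen.measurableSet
  unfold KT
  repeat' apply IsOpen.and
  all_goals exact isOpen_lt (by fun_prop) (by fun_prop)

theorem measurableSet_tau (e : ℝ) (i : Fin 4 × Fin 3) : MeasurableSet (tau e i) := by
  unfold tau
  have : Measurable (fun x : Fin 3 → ℝ => (PM i.1 i.2).mulVec x + 0) := by
    have h1 : Continuous (fun x : Fin 3 → ℝ => (PM i.1 i.2).mulVec x + 0) := by
      apply Continuous.add _ continuous_const
      exact Continuous.matrix_mulVec continuous_const continuous_id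
    exact h1.measurable
  exact this (measurableSet_KT e)

/-- Volume bound for the body `K_e`, in coordinates. -/
theorem vol_Kin_le {e : ℝ} (he : 0 < e) :
    volume {x : Fin 3 → ℝ | Kin e (x 0) (x 1) (x 2)} ≤
      ENNReal.ofReal (8 / 3 * (1 + e) ^ 3 - 2 * e * (83 / 125 + e) ^ 2) := by
  have hU : volume (⋃ i, tau e i) = 12 * volume {x : Fin 3 → ℝ | KT e (x 0) (x 1) (x 2)} := by
    rw [measure_iUnion (tau_disjoint he) (measurableSet_tau e), tsum_fintype]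
    simp only [vol_tau]
    simp
  have hdisj : Disjoint {x : Fin 3 → ℝ | Kin e (x 0) (x 1) (x 2)} (⋃ i, tau e i) := by
    rw [Set.disjoint_left]
    intro x hx hx2
    simp only [Set.mem_iUnion] at hx2
    obtain ⟨i, hi⟩ := hx2
    exact tau_not_Kin he hi hx
  have hsub : {x : Fin 3 → ℝ | Kin e (x 0) (x 1) (x 2)} ∪ (⋃ i, tau e i) ⊆ TT (1 + e) := by
    apply Set.union_subset
    · rintro x ⟨h1, h2, h3, h4, h5, h6, h7, h8, h9, h10, h11, h12, h13, h14, h15, h16⟩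
      exact ⟨h1, h5, h9, h13⟩
    · exact Set.iUnion_subset (tau_subset he)
  have hm : MeasurableSet (⋃ i, tau e i) := MeasurableSet.iUnion (measurableSet_tau e)
  have h1 := measure_mono (μ := volume) hsub
  rw [measure_union hdisj hm, hU] at h1
  have h2 : volume {x : Fin 3 → ℝ | Kin e (x 0) (x 1) (x 2)} +
      ENNReal.ofReal (2 * e * (83 / 125 + e) ^ 2) ≤ ENNReal.ofReal (8 / 3 * (1 + e) ^ 3) := by
    refine le_trans ?_ (le_trans h1 (vol_TT_le (by positivity)))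
    gcongr
    have h3 := vol_KT he
    calc ENNReal.ofReal (2 * e * (83 / 125 + e) ^ 2)
        = 12 * ENNReal.ofReal (e * (83 / 125 + e) ^ 2 / 6) := by
          rw [show (12 : ℝ≥0∞) = ENNReal.ofReal 12 by simp, ← ENNReal.ofReal_mul (by norm_num)]
          congr 1; ring
      _ ≤ _ := by gcongr
  rw [ENNReal.ofReal_sub _ (by positivity)]
  exact ENNReal.le_sub_of_add_le_right ENNReal.ofReal_ne_top h2

theorem vol_Kb_le {e : ℝ} (he : 0 < e) :
    volume (Kb e) ≤ ENNReal.ofReal (8 / 3 * (1 + e) ^ 3 - 2 * e * (83 / 125 + e) ^ 2) := by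
  have h := (PiLp.volume_preserving_ofLp (Fin 3)).measure_preimage
    (s := {x : Fin 3 → ℝ | Kin e (x 0) (x 1) (x 2)}) ?_
  · have h2 : Kb e = (WithLp.ofLp : E3 → (Fin 3 → ℝ)) ⁻¹' {x : Fin 3 → ℝ | Kin e (x 0) (x 1) (x 2)} :=
      rfl
    rw [h2, h]
    exact vol_Kin_le he
  · apply MeasurableSet.nullMeasurableSet
    apply IsClosed.measurableSet
    unfold Kin
    repeat' apply IsClosed.and
    all_goals exact isClosed_le (by fun_prop) (by fun_prop)

end Pool.Agent.Helper84.Tet
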